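import Mathlib
import Pool.Agent.H33.Q1.A.Local

set_option autoImplicit false
open Finset

/-!
# Three arms in a half annulus, eight normals; clusters that land in a window (Route W, W-E)

`W3 ν z ρ R ω` : an open cluster of the half annulus with inner normal `ν` around `z` crosses it and does
not meet the wall.

* `W3_of_cluster` : `B` a set of labels which lies, near `z`, in the half plane of the wall through `z`
  (steps, teeth and so on are allowed); if an open cluster of `B` joins a vertex near `z` to a vertex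
  far from `z` and meets the boundary of `B` near `z` only at distance `< ρ` of `z`, then `W3` holds for
  every configuration of the labels outside `B`.
* `W3_le` : the probability of `W3` is at most `C (ρ / R) ^ 2`.
-/

namespace Pool.Agent.H65.W

open Pool.Agent.H75.Perc hiding WL CT hh
open Pool.Agent.H75.TwoArm Pool.Agent.H75.Four Pool.Agent.H69.Q1 Pool.Agent.Q1
open Pool.Agent.H60.Q1 Pool.Agent.H20.Q1 Pool.Agent.H33.Q1

/-- normals of the walls: axis-parallel or diagonal -/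
def Nrm (ν : ℤ × ℤ) : Prop := IsUnit4 ν ∨ ((ν.1 = 1 ∨ ν.1 = -1) ∧ (ν.2 = 1 ∨ ν.2 = -1))

/-- labels of the half annulus, strictly above the wall -/
noncomputable def HA (ν z : ℤ × ℤ) (ρ R : ℤ) : Finset (ℤ × ℤ) :=
  Pool.Agent.H33.Q1.HB ν z R \ BZ z ρ

lemma mem_HA {ν z : ℤ × ℤ} {ρ R : ℤ} {e : ℤ × ℤ} : e ∈ HA ν z ρ R ↔
    (e ∈ BZ z R ∧ 0 < hl ν z e) ∧ e ∉ BZ z ρ := by
  unfold HA
  rw [mem_sdiff, Pool.Agent.H33.Q1.mem_HB]

/-- three arms at the wall, half annulus -/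
def W3 (ν z : ℤ × ℤ) (ρ R : ℤ) (ω : Finset (ℤ × ℤ)) : Prop :=
  ∃ u v, Near z ρ u ∧ Far z R v ∧ Co (ω ∩ HA ν z ρ R) u v ∧
    ∀ y, Co (ω ∩ HA ν z ρ R) u y → 0 < hg ν z y

lemma W3_local {ν z : ℤ × ℤ} {ρ R : ℤ} {ω : Finset (ℤ × ℤ)} :
    W3 ν z ρ R ω ↔ W3 ν z ρ R (ω ∩ HA ν z ρ R) := by
  unfold W3
  rw [inter_assoc, inter_self]

/-- a step of the lattice which goes down -/
lemma Nrm.down {ν : ℤ × ℤ} (h : Nrm ν) : ∃ d, IsUnit4 d ∧ ν.1 * d.1 + ν.2 * d.2 = -1 := by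
  rcases h with h | ⟨h1, h2⟩
  · refine ⟨-ν, unit_neg h, ?_⟩
    rcases h with rfl | rfl | rfl | rfl <;> simp
  · rcases h1 with h1 | h1
    · exact ⟨(-1, 0), Or.inr (Or.inr (Or.inl rfl)), by rw [h1]; simp⟩
    · exact ⟨(1, 0), Or.inl rfl, by rw [h1]; simp⟩

lemma near_label {z u v : ℤ × ℤ} {ρ : ℤ} (h : IsUnit4 (v - u)) (hu : Near z ρ u) (hv : Near z ρ v) :
    u + v ∈ BZ z ρ := by
  have := unit_cases h
  unfold Near at hu hv
  rw [abs_le, abs_le] at hu hv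
  rw [mem_Bx]
  simp only [Prod.fst_add, Prod.snd_add]
  omega

lemma near_succ {z u v : ℤ × ℤ} {ρ : ℤ} (h : IsUnit4 (v - u)) (hu : Near z ρ u) : Near z (ρ + 1) v := by
  have := unit_cases h
  unfold Near at hu ⊢
  rw [abs_le, abs_le] at hu ⊢
  omega

/-- **A cluster that lands in a window.** -/
theorem W3_of_cluster {ν z : ℤ × ℤ} {ρ R : ℤ} {B ω ω' : Finset (ℤ × ℤ)} (hν : Nrm ν) (hρR : ρ < R)
    (hodd : ∀ l ∈ ω, (l.1 + l.2) % 2 = 1)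
    (hB : ∀ l ∈ B, l ∈ BZ z (R + 1) → 0 < hl ν z l) (hω : ω ⊆ B) (hω' : Disjoint ω' B)
    {x y : ℤ × ℤ} (hyx : Co ω y x) (hy : Near z ρ y) (hx : Far z R x)
    (hK : ∀ w, Co ω x w → Near z R w → ¬ Near z (ρ - 1) w → ∀ d, IsUnit4 d → w + (w + d) ∈ B) :
    W3 ν z ρ R (ω ∪ ω') := by
  obtain ⟨x', hx', h1⟩ := first_far hodd hyx (near_or_far hρR hy) hx
  obtain ⟨p, hp, h2, h3⟩ := co_exit h1 hy (fun h => near_or_far hρR h hx')
  have hxp : Co ω x p := hyx.symm.trans (h2.mono inter_subset_left)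
  -- `p` is at distance exactly `ρ`
  have hpρ : ¬ Near z (ρ - 1) p := by
    intro hn
    rcases Relation.ReflTransGen.cases_head h3 with h4 | ⟨c, h4, -⟩
    · rw [h4] at hp
      exact near_or_far hρR hp hx'
    · have h5 := near_succ h4.1 hn
      rw [sub_add_cancel] at h5
      exact (mem_sdiff.1 h4.2).2 (near_label h4.1 hp h5)
  have hpR : Near z R p := Near.near hρR.le hp
  refine ⟨p, x', hp, hx', h3.mono ?_, ?_⟩
  · intro l hl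
    obtain ⟨h4, h5⟩ := mem_sdiff.1 hl
    obtain ⟨h6, h7⟩ := mem_inter.1 h4
    refine mem_inter.2 ⟨mem_union_left _ h6, mem_HA.2 ⟨⟨h7, hB l (hω h6) ?_⟩, h5⟩⟩
    rw [mem_Bx] at h7 ⊢
    omega
  · -- the cluster stays in `B`
    have key : ∀ w, Co ((ω ∪ ω') ∩ HA ν z ρ R) p w →
        Co ω x w ∧ Near z R w ∧ ¬ Near z (ρ - 1) w := by
      intro w hw
      induction hw with
      | refl => exact ⟨hxp, hpR, hpρ⟩
      | @tail b c _ hbc ih =>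
        obtain ⟨ih1, ih2, ih3⟩ := ih
        obtain ⟨h4, h5⟩ := mem_inter.1 hbc.2
        have h6 := mem_HA.1 h5
        have hlB : b + c ∈ B := by
          have := hK b ih1 ih2 ih3 (c - b) hbc.1
          rwa [add_sub_cancel] at this
        have hlω : b + c ∈ ω := by
          rcases mem_union.1 h4 with h7 | h7
          · exact h7
          · exact absurd hlB (Finset.disjoint_left.1 hω' h7)
        refine ⟨ih1.tail ⟨hbc.1, hlω⟩, (near_of_bz hbc.1 h6.1.1).2, ?_⟩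
        intro hn
        have h7 : Near z ρ b := by
          have h8 := near_succ (u := c) (v := b) (by
            have := unit_neg hbc.1
            rwa [neg_sub] at this) hn
          rwa [sub_add_cancel] at h8
        have h9 : Near z ρ c := Near.near (by omega) hn
        exact h6.2 (near_label hbc.1 h7 h9)
    intro w hw
    obtain ⟨h4, h5, h6⟩ := key w hw
    by_contra hneg
    rw [not_lt] at hneg
    obtain ⟨d, hd, hd'⟩ := hν.down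
    have h7 := hK w h4 h5 h6 d hd
    have hn : Near z (R + 1) (w + d) := near_succ (u := w) (v := w + d) (by
      rw [add_sub_cancel_left]; exact hd) h5
    have h8 := hB _ h7 (near_label (by rw [add_sub_cancel_left]; exact hd)
      (Near.near (by omega) h5) hn)
    rw [hl_add] at h8
    have h9 : hg ν z (w + d) = hg ν z w + (ν.1 * d.1 + ν.2 * d.2) := by
      unfold hg
      simp only [Prod.fst_add, Prod.snd_add]
      ring
    rw [h9, hd'] at h8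
    omega

/-! ### Probability -/

lemma W3_U3_0 {z : ℤ × ℤ} {ρ R : ℤ} {ω : Finset (ℤ × ℤ)} (h : W3 (0, 1) z ρ R ω) : U3 0 z ρ R ω := by
  obtain ⟨u, v, hu, hv, huv, hcu⟩ := h
  have hhg : ∀ y, hg (0, 1) z y = y.2 - z.2 := fun y => by unfold hg; ring
  have hhl : ∀ y, hl (0, 1) z y = y.2 - 2 * z.2 := fun y => by unfold hl; ring
  have hsub : HA (0, 1) z ρ R ⊆ AL 0 z ρ R := by
    intro l hl'
    have h1 := mem_HA.1 hl'
    rw [hhl] at h1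
    unfold AL
    refine mem_sdiff.2 ⟨?_, h1.2⟩
    rw [mem_HL]
    have := mem_Bx.1 h1.1.1
    omega
  refine ⟨u, v, hu, hv, huv.mono (inter_subset_inter_left hsub), ?_⟩
  have key : ∀ y, Co (ω ∩ AL 0 z ρ R) u y → Co (ω ∩ HA (0, 1) z ρ R) u y := by
    intro y hy
    induction hy with
    | refl => exact Co.refl _ _
    | @tail b c _ hbc ih =>
      have h1 := hcu b ih
      rw [hhg] at h1
      refine ih.tail ⟨hbc.1, ?_⟩
      obtain ⟨h3, h4⟩ := mem_inter.1 hbc.2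
      refine mem_inter.2 ⟨h3, mem_HA.2 ⟨⟨?_, ?_⟩, ?_⟩⟩
      · have := (mem_AL.1 h4).1.1
        rw [mem_Bx]; exact this
      · rw [hhl]
        have := unit_cases hbc.1
        simp only [Prod.snd_add]
        omega
      · unfold AL at h4
        exact (mem_sdiff.1 h4).2
  intro y hy
  have h1 := hcu y (key y hy)
  rw [hhg] at h1
  unfold ht
  omega

lemma HA_eq {z : ℤ × ℤ} {ρ R : ℤ} : HA (1, 1) z ρ R = AL 1 z ρ R := by
  ext l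
  rw [mem_HA, mem_AL, mem_Bx, mem_Bx]
  unfold hl
  simp only [one_mul]
  constructor
  · rintro ⟨⟨⟨h1, h2, h3⟩, h4⟩, h5⟩
    exact ⟨⟨⟨h1, h2, h3⟩, by omega⟩, h5⟩
  · rintro ⟨⟨⟨h1, h2, h3⟩, h4⟩, h5⟩
    exact ⟨⟨⟨h1, h2, h3⟩, by omega⟩, h5⟩

lemma W3_U3_1 {z : ℤ × ℤ} {ρ R : ℤ} {ω : Finset (ℤ × ℤ)} (h : W3 (1, 1) z ρ R ω) : U3 1 z ρ R ω := by
  obtain ⟨u, v, hu, hv, huv, hcu⟩ := h
  rw [HA_eq] at huv hcu
  refine ⟨u, v, hu, hv, huv, fun y hy => ?_⟩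
  have := hcu y hy
  unfold hg at this
  unfold ht
  simp only [one_mul] at this ⊢
  omega

lemma W3_sy (S : Sy) {ν ν' z : ℤ × ℤ} {ρ R : ℤ} (hN : ∀ u ρ, Near (S.g z) ρ (S.g u) ↔ Near z ρ u)
    (hF : ∀ u, Far (S.g z) R (S.g u) ↔ Far z R u) (hh : ∀ y, hg ν' (S.g z) (S.g y) = hg ν z y)
    (hE : ∀ e, e ∈ HA ν' (S.g z) ρ R ↔ S.G' e ∈ HA ν z ρ R) {ω : Finset (ℤ × ℤ)} :
    W3 ν' (S.g z) ρ R (ω.map S.G) ↔ W3 ν z ρ R ω := by
  unfold W3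
  rw [S.map_inter ω hE]
  constructor
  · rintro ⟨u, v, h1, h2, h3, h4⟩
    refine ⟨S.g' u, S.g' v, ?_, ?_, ?_, ?_⟩
    · rw [← hN, S.gg']; exact h1
    · rw [← hF, S.gg']; exact h2
    · rw [← S.co_iff, S.gg', S.gg']; exact h3
    · intro y hy
      rw [← S.co_iff, S.gg'] at hy
      rw [← hh]
      exact h4 _ hy
  · rintro ⟨u, v, h1, h2, h3, h4⟩
    refine ⟨S.g u, S.g v, (hN u ρ).2 h1, (hF v).2 h2, (S.co_iff _ _ _).2 h3, ?_⟩
    intro y hy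
    rw [← S.gg' y, S.co_iff] at hy
    have := h4 _ hy
    rw [← hh, S.gg'] at this
    exact this

lemma Pr_W3_local {E : Finset (ℤ × ℤ)} {ν z : ℤ × ℤ} {ρ R : ℤ} (hE : HA ν z ρ R ⊆ E) :
    Pr E (W3 ν z ρ R) = Pr (HA ν z ρ R) (W3 ν z ρ R) := by
  rw [← Pr_restrict hE]
  exact Pr_congr fun ω _ => W3_local

/-- transport by a symmetry -/
lemma Pr_W3_sy (S : Sy) {ν ν' z : ℤ × ℤ} {ρ R : ℤ}
    (hN : ∀ u ρ, Near (S.g z) ρ (S.g u) ↔ Near z ρ u)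
    (hF : ∀ u, Far (S.g z) R (S.g u) ↔ Far z R u) (hh : ∀ y, hg ν' (S.g z) (S.g y) = hg ν z y)
    (hE : ∀ e, e ∈ HA ν' (S.g z) ρ R ↔ S.G' e ∈ HA ν z ρ R) :
    Pr (HA ν' (S.g z) ρ R) (W3 ν' (S.g z) ρ R) = Pr (HA ν z ρ R) (W3 ν z ρ R) := by
  rw [S.Pr hE]
  exact Pr_congr fun ω _ => W3_sy S hN hF hh hE

lemma Pr_W3_X {ν z : ℤ × ℤ} {ρ R : ℤ} : Pr (HA (-ν.1, ν.2) (-z.1, z.2) ρ R)
    (W3 (-ν.1, ν.2) (-z.1, z.2) ρ R) = Pr (HA ν z ρ R) (W3 ν z ρ R) := by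
  have hz : (syX 0).g z = (-z.1, z.2) := by
    show (0 - z.1, z.2) = (-z.1, z.2)
    rw [zero_sub]
  rw [← hz]
  refine Pr_W3_sy (syX 0) (fun u ρ => ?_) (fun u => ?_) (fun y => ?_) (fun e => ?_)
  · show Near (0 - z.1, z.2) ρ (0 - u.1, u.2) ↔ _
    unfold Near
    simp only [abs_le]
    omega
  · show Far (0 - z.1, z.2) R (0 - u.1, u.2) ↔ _
    unfold Far
    simp only [le_abs]
    omega
  · show hg (-ν.1, ν.2) (0 - z.1, z.2) (0 - y.1, y.2) = _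
    unfold hg
    simp only
    ring
  · show e ∈ HA (-ν.1, ν.2) (0 - z.1, z.2) ρ R ↔ (2 * 0 - e.1, e.2) ∈ HA ν z ρ R
    rw [mem_HA, mem_HA, mem_Bx, mem_Bx, mem_Bx, mem_Bx]
    unfold hl
    simp only
    have h1 : -ν.1 * (e.1 - 2 * (0 - z.1)) + ν.2 * (e.2 - 2 * z.2) =
      ν.1 * (2 * 0 - e.1 - 2 * z.1) + ν.2 * (e.2 - 2 * z.2) := by ring
    rw [h1]
    generalize ν.1 * (2 * 0 - e.1 - 2 * z.1) + ν.2 * (e.2 - 2 * z.2) = t
    omega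

lemma Pr_W3_Y {ν z : ℤ × ℤ} {ρ R : ℤ} : Pr (HA (ν.1, -ν.2) (z.1, -z.2) ρ R)
    (W3 (ν.1, -ν.2) (z.1, -z.2) ρ R) = Pr (HA ν z ρ R) (W3 ν z ρ R) := by
  have hz : (syY 0).g z = (z.1, -z.2) := by
    show (z.1, 0 - z.2) = (z.1, -z.2)
    rw [zero_sub]
  rw [← hz]
  refine Pr_W3_sy (syY 0) (fun u ρ => ?_) (fun u => ?_) (fun y => ?_) (fun e => ?_)
  · show Near (z.1, 0 - z.2) ρ (u.1, 0 - u.2) ↔ _
    unfold Near
    simp only [abs_le]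
    omega
  · show Far (z.1, 0 - z.2) R (u.1, 0 - u.2) ↔ _
    unfold Far
    simp only [le_abs]
    omega
  · show hg (ν.1, -ν.2) (z.1, 0 - z.2) (y.1, 0 - y.2) = _
    unfold hg
    simp only
    ring
  · show e ∈ HA (ν.1, -ν.2) (z.1, 0 - z.2) ρ R ↔ (e.1, 2 * 0 - e.2) ∈ HA ν z ρ R
    rw [mem_HA, mem_HA, mem_Bx, mem_Bx, mem_Bx, mem_Bx]
    unfold hl
    simp only
    have h1 : ν.1 * (e.1 - 2 * z.1) + -ν.2 * (e.2 - 2 * (0 - z.2)) =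
      ν.1 * (e.1 - 2 * z.1) + ν.2 * (2 * 0 - e.2 - 2 * z.2) := by ring
    rw [h1]
    generalize ν.1 * (e.1 - 2 * z.1) + ν.2 * (2 * 0 - e.2 - 2 * z.2) = t
    omega

lemma Pr_W3_D {ν z : ℤ × ℤ} {ρ R : ℤ} : Pr (HA (ν.2, ν.1) (z.2, z.1) ρ R)
    (W3 (ν.2, ν.1) (z.2, z.1) ρ R) = Pr (HA ν z ρ R) (W3 ν z ρ R) := by
  have hz : syD.g z = (z.2, z.1) := rfl
  rw [← hz]
  refine Pr_W3_sy syD (fun u ρ => ?_) (fun u => ?_) (fun y => ?_) (fun e => ?_)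
  · show Near (z.2, z.1) ρ (u.2, u.1) ↔ _
    unfold Near
    simp only
    tauto
  · show Far (z.2, z.1) R (u.2, u.1) ↔ _
    unfold Far
    simp only
    tauto
  · show hg (ν.2, ν.1) (z.2, z.1) (y.2, y.1) = _
    unfold hg
    simp only
    ring
  · show e ∈ HA (ν.2, ν.1) (z.2, z.1) ρ R ↔ (e.2, e.1) ∈ HA ν z ρ R
    rw [mem_HA, mem_HA, mem_Bx, mem_Bx, mem_Bx, mem_Bx]
    unfold hl
    simp only
    have h1 : ν.2 * (e.1 - 2 * z.2) + ν.1 * (e.2 - 2 * z.1) =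
      ν.1 * (e.2 - 2 * z.1) + ν.2 * (e.1 - 2 * z.2) := by ring
    rw [h1]
    generalize ν.1 * (e.2 - 2 * z.1) + ν.2 * (e.1 - 2 * z.2) = t
    omega

/-- **Three arms in a half annulus**, eight directions. -/
theorem W3_le : ∃ C : ℝ, 0 < C ∧ ∀ (E : Finset (ℤ × ℤ)) (ν z : ℤ × ℤ) (ρ R : ℤ), Nrm ν →
    HA ν z ρ R ⊆ E → 1 ≤ ρ → 1 ≤ R → Pr E (W3 ν z ρ R) ≤ C * (ρ / R) ^ 2 := by
  obtain ⟨C, hC, h⟩ := u3_le
  refine ⟨C, hC, ?_⟩
  have b0 : ∀ (z : ℤ × ℤ) (ρ R : ℤ), 1 ≤ ρ → 1 ≤ R →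
      Pr (HA (0, 1) z ρ R) (W3 (0, 1) z ρ R) ≤ C * (ρ / R) ^ 2 := by
    intro z ρ R h1 h2
    refine le_trans ?_ (h 0 (Or.inl rfl) z ρ R h1 h2)
    rw [← Pr_U3 (E := HA (0, 1) z ρ R ∪ AL 0 z ρ R) subset_union_right,
      ← Pr_W3_local (E := HA (0, 1) z ρ R ∪ AL 0 z ρ R) subset_union_left]
    exact Pr_mono fun ω _ => W3_U3_0
  have b1 : ∀ (z : ℤ × ℤ) (ρ R : ℤ), 1 ≤ ρ → 1 ≤ R →
      Pr (HA (1, 1) z ρ R) (W3 (1, 1) z ρ R) ≤ C * (ρ / R) ^ 2 := by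
    intro z ρ R h1 h2
    refine le_trans ?_ (h 1 (Or.inr rfl) z ρ R h1 h2)
    rw [← Pr_U3 (E := AL 1 z ρ R) (Finset.Subset.refl _), HA_eq]
    exact Pr_mono fun ω _ => W3_U3_1
  intro E ν z ρ R hν hE h1 h2
  rw [Pr_W3_local hE]
  -- reflections
  have rX : ∀ (ν z : ℤ × ℤ), Pr (HA (-ν.1, ν.2) (-z.1, z.2) ρ R) (W3 (-ν.1, ν.2) (-z.1, z.2) ρ R) ≤
      C * (ρ / R) ^ 2 → Pr (HA ν z ρ R) (W3 ν z ρ R) ≤ C * (ρ / R) ^ 2 := fun ν z h => by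
    rwa [Pr_W3_X] at h
  have rY : ∀ (ν z : ℤ × ℤ), Pr (HA (ν.1, -ν.2) (z.1, -z.2) ρ R) (W3 (ν.1, -ν.2) (z.1, -z.2) ρ R) ≤
      C * (ρ / R) ^ 2 → Pr (HA ν z ρ R) (W3 ν z ρ R) ≤ C * (ρ / R) ^ 2 := fun ν z h => by
    rwa [Pr_W3_Y] at h
  have rD : ∀ (ν z : ℤ × ℤ), Pr (HA (ν.2, ν.1) (z.2, z.1) ρ R) (W3 (ν.2, ν.1) (z.2, z.1) ρ R) ≤
      C * (ρ / R) ^ 2 → Pr (HA ν z ρ R) (W3 ν z ρ R) ≤ C * (ρ / R) ^ 2 := fun ν z h => by
    rwa [Pr_W3_D] at h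
  have up : ∀ z : ℤ × ℤ, Pr (HA (0, -1) z ρ R) (W3 (0, -1) z ρ R) ≤ C * (ρ / R) ^ 2 := fun z =>
    rY (0, -1) z (by simpa using b0 (z.1, -z.2) ρ R h1 h2)
  rcases hν with hν | ⟨hν1, hν2⟩
  · rcases hν with rfl | rfl | rfl | rfl
    · exact rD (1, 0) z (b0 _ ρ R h1 h2)
    · exact b0 z ρ R h1 h2
    · exact rD (-1, 0) z (up _)
    · exact up z
  · obtain ⟨a, b⟩ := ν
    simp only at hν1 hν2
    have dn : ∀ (b : ℤ) (z : ℤ × ℤ), (b = 1 ∨ b = -1) →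
        Pr (HA (1, b) z ρ R) (W3 (1, b) z ρ R) ≤ C * (ρ / R) ^ 2 := by
      intro b z hb
      rcases hb with rfl | rfl
      · exact b1 z ρ R h1 h2
      · exact rY (1, -1) z (by simpa using b1 (z.1, -z.2) ρ R h1 h2)
    rcases hν1 with rfl | rfl
    · exact dn b z hν2
    · exact rX (-1, b) z (by simpa using dn b (-z.1, z.2) hν2)

end Pool.Agent.H65.W
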