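import Mathlib
import Pool.Agent.H65.W.Land1

set_option autoImplicit false
open Finset

/-!
# The landing events, open and dual (Route W, W-E)

`LB ν z ρ R E ω` : `W3` holds for `ω` whatever the configuration of the labels of the half annulus which
do not belong to `E`. `LD` is the same event for the dual configuration `du E ω` (in face indices).

* `LB_of_cluster`, `LD_of_cluster` : a cluster of `ω ⊆ E` (a dual cluster) which comes from far and meets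
  the boundary of `E` near `z` only in the window of radius `ρ - 1` around `z`;
* `LB_local`, `LD_local` : the events are read in the labels of `E` in the half annulus;
* `LB_le`, `LD_le` : their probability is at most `C (ρ / R) ^ 2`.
-/

namespace Pool.Agent.H65.W

open Pool.Agent.H75.Perc hiding WL CT hh
open Pool.Agent.H75.TwoArm Pool.Agent.H75.Four Pool.Agent.H69.Q1 Pool.Agent.Q1
open Pool.Agent.H60.Q1 Pool.Agent.H20.Q1 Pool.Agent.H33.Q1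

variable {ν z : ℤ × ℤ} {ρ R : ℤ} {E F ω : Finset (ℤ × ℤ)}

/-- the landing event -/
def LB (ν z : ℤ × ℤ) (ρ R : ℤ) (E ω : Finset (ℤ × ℤ)) : Prop :=
  ∀ ω' : Finset (ℤ × ℤ), ω' ⊆ HA ν z ρ R → Disjoint ω' E → W3 ν z ρ R (ω ∪ ω')

/-- the dual landing event -/
def LD (ν z : ℤ × ℤ) (ρ R : ℤ) (E ω : Finset (ℤ × ℤ)) : Prop :=
  LB ν z ρ R (E.map sh1) (du E ω)

/-- the labels of `E` whose dual labels lie in the half annulus -/
noncomputable def HD (ν z : ℤ × ℤ) (ρ R : ℤ) (E : Finset (ℤ × ℤ)) : Finset (ℤ × ℤ) := by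
  classical exact E.filter fun l => sh1 l ∈ HA ν z ρ R

lemma mem_HD {l : ℤ × ℤ} : l ∈ HD ν z ρ R E ↔ l ∈ E ∧ sh1 l ∈ HA ν z ρ R := by
  unfold HD
  rw [mem_filter]

lemma LB_local (hF : E ∩ HA ν z ρ R ⊆ F) (hω : ω ⊆ E) :
    LB ν z ρ R E ω ↔ LB ν z ρ R E (ω ∩ F) := by
  unfold LB
  refine forall_congr' fun ω' => forall_congr' fun h1 => forall_congr' fun h2 => ?_
  rw [W3_local, W3_local (ω := ω ∩ F ∪ ω')]
  have : (ω ∪ ω') ∩ HA ν z ρ R = (ω ∩ F ∪ ω') ∩ HA ν z ρ R := by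
    ext l
    simp only [mem_inter, mem_union]
    constructor
    · rintro ⟨h3 | h3, h4⟩
      · exact ⟨Or.inl ⟨h3, hF (mem_inter.2 ⟨hω h3, h4⟩)⟩, h4⟩
      · exact ⟨Or.inr h3, h4⟩
    · rintro ⟨h3 | h3, h4⟩
      · exact ⟨Or.inl h3.1, h4⟩
      · exact ⟨Or.inr h3, h4⟩
  rw [this]

lemma mem_du' {l : ℤ × ℤ} : l ∈ du E ω ↔ ∃ e, e ∈ E ∧ e ∉ ω ∧ sh1 e = l := by
  unfold du
  rw [mem_map]
  constructor
  · rintro ⟨e, h, rfl⟩
    exact ⟨e, (mem_sdiff.1 h).1, (mem_sdiff.1 h).2, rfl⟩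
  · rintro ⟨e, h1, h2, rfl⟩
    exact ⟨e, mem_sdiff.2 ⟨h1, h2⟩, rfl⟩

lemma du_sub : du E ω ⊆ E.map sh1 := by
  unfold du
  exact map_subset_map.2 sdiff_subset

lemma LD_local (hF : HD ν z ρ R E ⊆ F) (hFE : F ⊆ E) :
    LD ν z ρ R E ω ↔ LB ν z ρ R (E.map sh1) (du F (ω ∩ F)) := by
  unfold LD
  rw [LB_local (F := HA ν z ρ R) inter_subset_right du_sub,
    LB_local (F := HA ν z ρ R) inter_subset_right
      ((du_sub (E := F) (ω := ω ∩ F)).trans (map_subset_map.2 hFE))]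
  have : du E ω ∩ HA ν z ρ R = du F (ω ∩ F) ∩ HA ν z ρ R := by
    ext l
    rw [mem_inter, mem_inter, mem_du', mem_du']
    constructor
    · rintro ⟨⟨e, h1, h2, rfl⟩, h4⟩
      exact ⟨⟨e, hF (mem_HD.2 ⟨h1, h4⟩), fun h => h2 (mem_inter.1 h).1, rfl⟩, h4⟩
    · rintro ⟨⟨e, h1, h2, rfl⟩, h4⟩
      exact ⟨⟨e, hFE h1, fun h => h2 (mem_inter.2 ⟨h, h1⟩), rfl⟩, h4⟩
  rw [this]

/-- the dual landing event is read in `F` -/
lemma LD_local' (hF : HD ν z ρ R E ⊆ F) (hFE : F ⊆ E) :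
    LD ν z ρ R E ω ↔ LD ν z ρ R E (ω ∩ F) := by
  rw [LD_local hF hFE, LD_local hF hFE, inter_assoc, inter_self]

/-! ### Clusters -/

/-- **A cluster that lands in a window.** -/
theorem LB_of_cluster (hν : Nrm ν) (hρR : ρ < R) (hodd : ∀ l ∈ E, (l.1 + l.2) % 2 = 1)
    (hE : ∀ l ∈ E, l ∈ BZ z (R + 1) → 0 < hl ν z l) (hω : ω ⊆ E)
    {x y : ℤ × ℤ} (hyx : Co ω y x) (hy : Near z ρ y) (hx : Far z R x)
    (hK : ∀ w, Co ω x w → Near z R w → ¬ Near z (ρ - 1) w → ∀ d, IsUnit4 d → w + (w + d) ∈ E) :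
    LB ν z ρ R E ω := fun _ _ h2 =>
  W3_of_cluster hν hρR (fun l hl => hodd l (hω hl)) hE hω h2 hyx hy hx hK

lemma odd_map (hodd : ∀ l ∈ E, (l.1 + l.2) % 2 = 1) : ∀ l ∈ E.map sh1, (l.1 + l.2) % 2 = 1 := by
  intro l hl
  obtain ⟨e, he, rfl⟩ := mem_map.1 hl
  have := hodd e he
  show (e.1 + 1 + (e.2 + 1)) % 2 = 1
  omega

/-- **A dual cluster that lands in a window.** -/
theorem LD_of_cluster (hν : Nrm ν) (hρR : ρ < R) (hodd : ∀ l ∈ E, (l.1 + l.2) % 2 = 1)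
    (hE : ∀ l ∈ E.map sh1, l ∈ BZ z (R + 1) → 0 < hl ν z l)
    {x y : ℤ × ℤ} (hyx : Co (du E ω) y x) (hy : Near z ρ y) (hx : Far z R x)
    (hK : ∀ w, Co (du E ω) x w → Near z R w → ¬ Near z (ρ - 1) w → ∀ d, IsUnit4 d →
      w + (w + d) ∈ E.map sh1) : LD ν z ρ R E ω :=
  LB_of_cluster hν hρR (odd_map hodd) hE du_sub hyx hy hx hK

/-! ### Probability -/

/-- **Bound of the landing event.** -/
theorem LB_le : ∃ C : ℝ, 0 < C ∧ ∀ (E F : Finset (ℤ × ℤ)) (ν z : ℤ × ℤ) (ρ R : ℤ), Nrm ν →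
    E ∩ HA ν z ρ R ⊆ F → F ⊆ E → 1 ≤ ρ → 1 ≤ R → Pr F (LB ν z ρ R E) ≤ C * (ρ / R) ^ 2 := by
  obtain ⟨C, hC, h⟩ := W3_le
  refine ⟨C, hC, fun E F ν z ρ R hν hF hFE h1 h2 => ?_⟩
  have hsub : HA ν z ρ R ⊆ F ∪ (HA ν z ρ R \ E) := by
    intro l hl
    by_cases hlE : l ∈ E
    · exact mem_union_left _ (hF (mem_inter.2 ⟨hlE, hl⟩))
    · exact mem_union_right _ (mem_sdiff.2 ⟨hl, hlE⟩)
  refine le_trans ?_ (h (F ∪ (HA ν z ρ R \ E)) ν z ρ R hν hsub h1 h2)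
  rw [← Pr_restrict (E := F ∪ (HA ν z ρ R \ E)) (E1 := F) subset_union_left (LB ν z ρ R E)]
  refine Pr_mono fun η hη h3 => ?_
  have h4 := h3 (η \ F) (by
      intro l hl
      obtain ⟨h5, h6⟩ := mem_sdiff.1 hl
      rcases mem_union.1 (hη h5) with h7 | h7
      · exact absurd h7 h6
      · exact (mem_sdiff.1 h7).1) (by
      rw [Finset.disjoint_left]
      intro l hl hlE
      obtain ⟨h5, h6⟩ := mem_sdiff.1 hl
      rcases mem_union.1 (hη h5) with h7 | h7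
      · exact h6 h7
      · exact (mem_sdiff.1 h7).2 hlE)
  rwa [show η ∩ F ∪ η \ F = η by
    ext l
    simp only [mem_union, mem_inter, mem_sdiff]
    tauto] at h4

/-- **Bound of the dual landing event.** -/
theorem LD_le : ∃ C : ℝ, 0 < C ∧ ∀ (E F : Finset (ℤ × ℤ)) (ν z : ℤ × ℤ) (ρ R : ℤ), Nrm ν →
    HD ν z ρ R E ⊆ F → F ⊆ E → 1 ≤ ρ → 1 ≤ R → Pr F (LD ν z ρ R E) ≤ C * (ρ / R) ^ 2 := by
  obtain ⟨C, hC, h⟩ := LB_le
  refine ⟨C, hC, fun E F ν z ρ R hν hF hFE h1 h2 => ?_⟩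
  have e1 : Pr F (LD ν z ρ R E) = Pr F (fun ω => LB ν z ρ R (E.map sh1) (du F ω)) := by
    refine Pr_congr fun ω hω => ?_
    rw [LD_local hF hFE, inter_eq_left.2 hω]
  rw [e1, Pr_du]
  refine h _ _ ν z ρ R hν ?_ (map_subset_map.2 hFE) h1 h2
  intro l hl
  obtain ⟨h3, h4⟩ := mem_inter.1 hl
  obtain ⟨e, he, rfl⟩ := mem_map.1 h3
  exact mem_map_of_mem _ (hF (mem_HD.2 ⟨he, h4⟩))

end Pool.Agent.H65.W
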