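import Mathlib
import Pool.Agent.H65.W.Land2
import Pool.Agent.H58.W.Coin
import Pool.Agent.H98.W.EndBlk

set_option autoImplicit false
open Finset

/-!
# Landing events and arms in coin models (Route W, W-E)

`PB E b` = coin model with blocks `b` (`H58.W.Coin`). All bounds only need that the coins are natural
(`b` injective) in the region where the event is read.

* `PB_LB_le`, `PB_LD_le` : landing events, open and dual, `≤ C (ρ / R) ^ 2`;
* `PB_OA_le`, `PB_OD_le` : one arm, open and dual;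
* `PB_corr_le`, `PB_corrD_le` : `n` disjoint annuli, all crossed by (dual) arms, `≤ (1 - δ) ^ n`
  (a long corridor).
-/

namespace Pool.Agent.H65.W

open Pool.Agent.H75.Perc hiding WL CT hh
open Pool.Agent.H75.TwoArm Pool.Agent.H75.Four Pool.Agent.H69.Q1 Pool.Agent.Q1
open Pool.Agent.H60.Q1 Pool.Agent.H20.Q1 Pool.Agent.H33.Q1
open Pool.Agent.H58.W

section gen

variable {α β : Type*} [DecidableEq α] [DecidableEq β]

/-- the coins are natural in `F` -/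
def Nat1 (b : α → β) (F : Finset α) : Prop := ∀ l ∈ F, ∀ l' ∈ F, b l = b l' → l = l'

omit [DecidableEq α] [DecidableEq β] in
lemma Nat1.mono {b : α → β} {F G : Finset α} (h : Nat1 b G) (hF : F ⊆ G) : Nat1 b F :=
  fun l hl l' hl' => h l (hF hl) l' (hF hl')

/-- an event read in `F` -/
lemma PB_read {E F : Finset α} {b : α → β} (hF : F ⊆ E) (hb : Nat1 b F) {A B : Finset α → Prop}
    (h : ∀ ω, ω ⊆ E → A ω → B (ω ∩ F)) : PB E b A ≤ Pr F B := by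
  rw [← PB_inj hb B, ← PB_restrict hF b B]
  exact PB_mono fun ω hω hA => h ω hω hA

/-- independence of several traces -/
theorem PB_indep_range {E : Finset α} {b : α → β} (F : ℕ → Finset α) (A : ℕ → Finset α → Prop)
    (n : ℕ) (hF : ∀ k < n, F k ⊆ E) (hs : ∀ k < n, ∀ j < k, Sep b (F j) (F k)) :
    PB E b (fun ω => ∀ k < n, A k (ω ∩ F k)) = ∏ k ∈ range n, PB (F k) b (A k) := by
  induction n with
  | zero => simp
  | succ n ih =>
    rw [prod_range_succ, ← ih (fun k hk => hF k (by omega)) (fun k hk => hs k (by omega))]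
    set U : Finset α := (range n).biUnion F with hU
    have hUF : ∀ k < n, F k ⊆ U := fun k hk => subset_biUnion_of_mem F (mem_range.2 hk)
    have hUE : U ⊆ E := by
      rw [hU, biUnion_subset]
      intro k hk
      exact hF k (by have := mem_range.1 hk; omega)
    have hsep : Sep b U (F n) := by
      intro l hl l' hl'
      rw [hU, mem_biUnion] at hl
      obtain ⟨k, hk, hl⟩ := hl
      exact hs n (by omega) k (mem_range.1 hk) l hl l' hl'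
    have key : ∀ ω : Finset α, (∀ k < n, A k (ω ∩ F k)) ↔ ∀ k < n, A k (ω ∩ U ∩ F k) := by
      intro ω
      refine forall_congr' fun k => forall_congr' fun hk => ?_
      rw [inter_assoc, inter_eq_right.2 (hUF k hk)]
    have e1 : PB E b (fun ω => ∀ k < n + 1, A k (ω ∩ F k)) =
        PB E b (fun ω => (fun η => ∀ k < n, A k (η ∩ F k)) (ω ∩ U) ∧ A n (ω ∩ F n)) := by
      refine PB_congr fun ω _ => ?_
      constructor
      · intro h
        exact ⟨(key ω).1 fun k hk => h k (by omega), h n (by omega)⟩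
      · rintro ⟨h1, h2⟩ k hk
        rcases Nat.lt_succ_iff_lt_or_eq.1 hk with h3 | rfl
        · exact (key ω).2 h1 k h3
        · exact h2
    have e2 := PB_indep hUE (hF n (by omega)) hsep (fun η => ∀ k < n, A k (η ∩ F k)) (A n)
    rw [← PB_restrict hUE b (fun η => ∀ k < n, A k (η ∩ F k))] at e2
    rw [e1, e2]
    congr 1
    exact PB_congr fun ω _ => (key ω).symm

end gen

variable {β : Type*} [DecidableEq β] {ν z : ℤ × ℤ} {ρ R : ℤ} {E F ω : Finset (ℤ × ℤ)}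

lemma HD_sub : HD ν z ρ R E ⊆ E := fun _ h => (mem_HD.1 h).1

/-- **Landing, open.** -/
theorem PB_LB_le : ∃ C : ℝ, 0 < C ∧ ∀ {β : Type} [DecidableEq β] (E : Finset (ℤ × ℤ))
    (b : ℤ × ℤ → β) (ν z : ℤ × ℤ) (ρ R : ℤ), Nrm ν → Nat1 b (E ∩ HA ν z ρ R) → 1 ≤ ρ → 1 ≤ R →
    PB E b (LB ν z ρ R E) ≤ C * (ρ / R) ^ 2 := by
  obtain ⟨C, hC, h⟩ := LB_le
  refine ⟨C, hC, fun {β} _ E b ν z ρ R hν hb h1 h2 => ?_⟩
  refine le_trans (PB_read inter_subset_left hb (B := LB ν z ρ R E) ?_)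
    (h E (E ∩ HA ν z ρ R) ν z ρ R hν (Finset.Subset.refl _) inter_subset_left h1 h2)
  intro ω hω hA
  exact (LB_local (Finset.Subset.refl _) hω).1 hA

/-- **Landing, dual.** -/
theorem PB_LD_le : ∃ C : ℝ, 0 < C ∧ ∀ {β : Type} [DecidableEq β] (E : Finset (ℤ × ℤ))
    (b : ℤ × ℤ → β) (ν z : ℤ × ℤ) (ρ R : ℤ), Nrm ν → Nat1 b (HD ν z ρ R E) → 1 ≤ ρ → 1 ≤ R →
    PB E b (LD ν z ρ R E) ≤ C * (ρ / R) ^ 2 := by
  obtain ⟨C, hC, h⟩ := LD_le
  refine ⟨C, hC, fun {β} _ E b ν z ρ R hν hb h1 h2 => ?_⟩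
  refine le_trans (PB_read HD_sub hb (B := LD ν z ρ R E) ?_)
    (h E (HD ν z ρ R E) ν z ρ R hν (Finset.Subset.refl _) HD_sub h1 h2)
  intro ω hω hA
  exact (LD_local' (Finset.Subset.refl _) HD_sub).1 hA

/-! ### One arm -/

/-- the annulus -/
noncomputable def An (z : ℤ × ℤ) (ρ R : ℤ) : Finset (ℤ × ℤ) := BZ z R \ BZ z ρ

/-- dual arm -/
def OD (z : ℤ × ℤ) (ρ R : ℤ) (E ω : Finset (ℤ × ℤ)) : Prop :=
  Pool.Agent.H33.Q1.OA z ρ R (du E ω)

/-- labels of `E` whose dual labels lie in `H` -/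
noncomputable def DF (H E : Finset (ℤ × ℤ)) : Finset (ℤ × ℤ) := by
  classical exact E.filter fun l => sh1 l ∈ H

lemma mem_DF {H : Finset (ℤ × ℤ)} {l : ℤ × ℤ} : l ∈ DF H E ↔ l ∈ E ∧ sh1 l ∈ H := by
  unfold DF
  rw [mem_filter]

lemma DF_sub {H : Finset (ℤ × ℤ)} : DF H E ⊆ E := fun _ h => (mem_DF.1 h).1

lemma du_DF {H : Finset (ℤ × ℤ)} : du E ω ∩ H = du (DF H E) (ω ∩ DF H E) := by
  ext l
  rw [mem_inter, mem_du', mem_du']
  constructor
  · rintro ⟨⟨e, h1, h2, rfl⟩, h3⟩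
    exact ⟨e, mem_DF.2 ⟨h1, h3⟩, fun h => h2 (mem_inter.1 h).1, rfl⟩
  · rintro ⟨e, h1, h2, rfl⟩
    exact ⟨⟨e, (mem_DF.1 h1).1, fun h => h2 (mem_inter.2 ⟨h, h1⟩), rfl⟩, (mem_DF.1 h1).2⟩

lemma OA_local' (hodd : ∀ l ∈ E, (l.1 + l.2) % 2 = 1) (hω : ω ⊆ E) (hρR : ρ < R)
    (h : Pool.Agent.H33.Q1.OA z ρ R ω) : Pool.Agent.H33.Q1.OA z ρ R (ω ∩ (E ∩ An z ρ R)) := by
  have h1 := Pool.Agent.H98.W.OA_local (fun l hl => hodd l (hω hl)) hρR h
  refine Pool.Agent.H98.W.OA_mono ?_ h1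
  intro l hl
  obtain ⟨h2, h3⟩ := mem_inter.1 hl
  exact mem_inter.2 ⟨h2, mem_inter.2 ⟨hω h2, h3⟩⟩

lemma OD_local (hodd : ∀ l ∈ E, (l.1 + l.2) % 2 = 1) (hρR : ρ < R) (h : OD z ρ R E ω) :
    Pool.Agent.H33.Q1.OA z ρ R (du (DF (An z ρ R) E) (ω ∩ DF (An z ρ R) E)) := by
  rw [← du_DF]
  have hodd' : ∀ l ∈ du E ω, (l.1 + l.2) % 2 = 1 := fun l hl => odd_map hodd l (du_sub hl)
  exact Pool.Agent.H98.W.OA_local hodd' hρR h

/-- **One arm**, open. -/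
theorem PB_OA_le : ∃ δ : ℝ, 0 < δ ∧ δ < 1 ∧ ∀ {β : Type} [DecidableEq β] (E : Finset (ℤ × ℤ))
    (b : ℤ × ℤ → β), (∀ l ∈ E, (l.1 + l.2) % 2 = 1) → ∀ (z : ℤ × ℤ) (ρ R : ℤ) (k : ℕ),
    Nat1 b (E ∩ An z ρ R) → 1 ≤ ρ → ρ < R → 4 ^ k * ρ ≤ R →
    PB E b (Pool.Agent.H33.Q1.OA z ρ R) ≤ (1 - δ) ^ k := by
  obtain ⟨δ, h0, h1, h⟩ := OA_le
  refine ⟨δ, h0, h1, fun {β} _ E b hodd z ρ R k hb hρ hρR hR => ?_⟩
  refine le_trans (PB_read inter_subset_left hb (B := Pool.Agent.H33.Q1.OA z ρ R)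
    fun ω hω hA => OA_local' hodd hω hρR hA) ?_
  exact h _ (fun l hl => hodd l (mem_inter.1 hl).1) z ρ R k hρ hR

/-- **One arm**, dual. -/
theorem PB_OD_le : ∃ δ : ℝ, 0 < δ ∧ δ < 1 ∧ ∀ {β : Type} [DecidableEq β] (E : Finset (ℤ × ℤ))
    (b : ℤ × ℤ → β), (∀ l ∈ E, (l.1 + l.2) % 2 = 1) → ∀ (z : ℤ × ℤ) (ρ R : ℤ) (k : ℕ),
    Nat1 b (DF (An z ρ R) E) → 1 ≤ ρ → ρ < R → 4 ^ k * ρ ≤ R →
    PB E b (OD z ρ R E) ≤ (1 - δ) ^ k := by
  obtain ⟨δ, h0, h1, h⟩ := OA_le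
  refine ⟨δ, h0, h1, fun {β} _ E b hodd z ρ R k hb hρ hρR hR => ?_⟩
  refine le_trans (PB_read DF_sub hb
    (B := fun ω => Pool.Agent.H33.Q1.OA z ρ R (du (DF (An z ρ R) E) ω))
    fun ω _ hA => OD_local hodd hρR hA) ?_
  rw [Pr_du]
  exact h _ (odd_map fun l hl => hodd l (DF_sub hl)) z ρ R k hρ hR

/-! ### Corridors -/

/-- **A chain of `n` disjoint annuli**, all crossed by open arms. -/
theorem PB_corr_le : ∃ δ : ℝ, 0 < δ ∧ δ < 1 ∧ ∀ {β : Type} [DecidableEq β] (E : Finset (ℤ × ℤ))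
    (b : ℤ × ℤ → β), (∀ l ∈ E, (l.1 + l.2) % 2 = 1) → ∀ (z : ℕ → ℤ × ℤ) (ρ R : ℤ) (n : ℕ),
    (∀ k < n, ∀ j < k, Disjoint (An (z j) ρ R) (An (z k) ρ R)) →
    Nat1 b (E ∩ (range n).biUnion fun k => An (z k) ρ R) → 1 ≤ ρ → 4 * ρ ≤ R →
    PB E b (fun ω => ∀ k < n, Pool.Agent.H33.Q1.OA (z k) ρ R ω) ≤ (1 - δ) ^ n := by
  obtain ⟨δ, h0, h1, h⟩ := OA_le
  refine ⟨δ, h0, h1, fun {β} _ E b hodd z ρ R n hd hb hρ hR => ?_⟩
  set F : ℕ → Finset (ℤ × ℤ) := fun k => E ∩ An (z k) ρ R with hF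
  have hsub : ∀ k < n, F k ⊆ E ∩ (range n).biUnion fun k => An (z k) ρ R := fun k hk =>
    inter_subset_inter_left (subset_biUnion_of_mem (fun k => An (z k) ρ R) (mem_range.2 hk))
  have e1 := PB_indep_range (E := E) (b := b) F (fun k => Pool.Agent.H33.Q1.OA (z k) ρ R) n
    (fun k _ => inter_subset_left) (fun k hk j hj l hl l' hl' he => by
      have h2 := hb l (hsub j (by omega) hl) l' (hsub k hk hl') he
      rw [h2] at hl
      exact Finset.disjoint_left.1 (hd k hk j hj) (mem_inter.1 hl).2 (mem_inter.1 hl').2)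
  refine le_trans (PB_mono fun ω hω hA k hk => OA_local' hodd hω (by omega) (hA k hk))
    (e1.le.trans ?_)
  calc ∏ k ∈ range n, PB (F k) b (Pool.Agent.H33.Q1.OA (z k) ρ R)
      ≤ ∏ _k ∈ range n, (1 - δ) := by
        refine prod_le_prod (fun k _ => PB_nonneg _ _ _) fun k hk => ?_
        rw [PB_inj (hb.mono (hsub k (mem_range.1 hk)))]
        have h3 := h (F k) (fun l hl => hodd l (mem_inter.1 hl).1) (z k) ρ R 1 hρ (by omega)
        rwa [pow_one] at h3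
    _ = (1 - δ) ^ n := by rw [prod_const, card_range]

/-- **A chain of `n` disjoint annuli**, all crossed by dual arms. -/
theorem PB_corrD_le : ∃ δ : ℝ, 0 < δ ∧ δ < 1 ∧ ∀ {β : Type} [DecidableEq β] (E : Finset (ℤ × ℤ))
    (b : ℤ × ℤ → β), (∀ l ∈ E, (l.1 + l.2) % 2 = 1) → ∀ (z : ℕ → ℤ × ℤ) (ρ R : ℤ) (n : ℕ),
    (∀ k < n, ∀ j < k, Disjoint (An (z j) ρ R) (An (z k) ρ R)) →
    Nat1 b (DF ((range n).biUnion fun k => An (z k) ρ R) E) → 1 ≤ ρ → 4 * ρ ≤ R →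
    PB E b (fun ω => ∀ k < n, OD (z k) ρ R E ω) ≤ (1 - δ) ^ n := by
  obtain ⟨δ, h0, h1, h⟩ := OA_le
  refine ⟨δ, h0, h1, fun {β} _ E b hodd z ρ R n hd hb hρ hR => ?_⟩
  set F : ℕ → Finset (ℤ × ℤ) := fun k => DF (An (z k) ρ R) E with hF
  have hsub : ∀ k < n, F k ⊆ DF ((range n).biUnion fun k => An (z k) ρ R) E := fun k hk l hl => by
    rw [hF, mem_DF] at hl
    exact mem_DF.2 ⟨hl.1, subset_biUnion_of_mem (fun k => An (z k) ρ R) (mem_range.2 hk) hl.2⟩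
  have e1 := PB_indep_range (E := E) (b := b) F
    (fun k ω => Pool.Agent.H33.Q1.OA (z k) ρ R (du (F k) ω)) n
    (fun k _ => DF_sub) (fun k hk j hj l hl l' hl' he => by
      have h2 := hb l (hsub j (by omega) hl) l' (hsub k hk hl') he
      rw [h2] at hl
      exact Finset.disjoint_left.1 (hd k hk j hj) (mem_DF.1 hl).2 (mem_DF.1 hl').2)
  refine le_trans (PB_mono fun ω _ hA k hk => OD_local hodd (by omega) (hA k hk)) (e1.le.trans ?_)
  calc ∏ k ∈ range n, PB (F k) b (fun ω => Pool.Agent.H33.Q1.OA (z k) ρ R (du (F k) ω))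
      ≤ ∏ _k ∈ range n, (1 - δ) := by
        refine prod_le_prod (fun k _ => PB_nonneg _ _ _) fun k hk => ?_
        rw [PB_inj (hb.mono (hsub k (mem_range.1 hk))), Pr_du]
        have h3 := h ((F k).map sh1) (odd_map fun l hl => hodd l (mem_DF.1 hl).1) (z k) ρ R 1 hρ
          (by omega)
        rwa [pow_one] at h3
    _ = (1 - δ) ^ n := by rw [prod_const, card_range]

end Pool.Agent.H65.W
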