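import Mathlib
import Pool.Agent.H65.W.Land3

set_option autoImplicit false
open Finset

/-!
# Crossings of a long corridor (Route W, W-E)

A corridor along a diagonal direction `ν` (= along an axis of the tile frame). `Crs ν z M κ` : `κ` joins
the line `0` to the line `M` of the coordinate `hg ν z`. If the labels of `E` between these lines lie in
the strip of half width `4 ρ - 1` (label units) and have natural coins there, then the probability of an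
open (dual) crossing is at most `(1 - δ) ^ n`, `n = M / (16 ρ + 2)`.
-/

namespace Pool.Agent.H65.W

open Pool.Agent.H75.Perc hiding WL CT hh
open Pool.Agent.H75.TwoArm Pool.Agent.H75.Four Pool.Agent.H69.Q1 Pool.Agent.Q1
open Pool.Agent.H60.Q1 Pool.Agent.H20.Q1 Pool.Agent.H33.Q1
open Pool.Agent.H58.W

/-- diagonal directions -/
def Dg (ν : ℤ × ℤ) : Prop := (ν.1 = 1 ∨ ν.1 = -1) ∧ (ν.2 = 1 ∨ ν.2 = -1)

/-- the perpendicular direction -/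
def prp (ν : ℤ × ℤ) : ℤ × ℤ := (-ν.2, ν.1)

/-- crossing from the line `0` to the line `M` -/
def Crs (ν z : ℤ × ℤ) (M : ℤ) (κ : Finset (ℤ × ℤ)) : Prop :=
  ∃ x y, Co κ x y ∧ hg ν z x ≤ 0 ∧ M ≤ hg ν z y

lemma Crs.mono {ν z : ℤ × ℤ} {M : ℤ} {κ κ' : Finset (ℤ × ℤ)} (h : Crs ν z M κ) (hs : κ ⊆ κ') :
    Crs ν z M κ' := by
  obtain ⟨x, y, h1, h2, h3⟩ := h
  exact ⟨x, y, h1.mono hs, h2, h3⟩

/-- the step of the path over the line `0` -/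
lemma co_step {ν z : ℤ × ℤ} (hν : Dg ν) {κ : Finset (ℤ × ℤ)} {x y : ℤ × ℤ} (h : Co κ x y)
    (hx : hg ν z x ≤ 0) (hy : 0 < hg ν z y) :
    ∃ m m', hg ν z m = 0 ∧ hg ν z m' = 1 ∧ Ad κ m m' ∧ Co κ m' y := by
  induction h with
  | refl => omega
  | @tail b c _ hbc ih =>
    by_cases hb : 0 < hg ν z b
    · obtain ⟨m, m', h1, h2, h3, h4⟩ := ih hb
      exact ⟨m, m', h1, h2, h3, h4.tail hbc⟩
    · have h1 := unit_cases hbc.1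
      have h2 : hg ν z b = 0 ∧ hg ν z c = 1 := by
        obtain ⟨h3, h4⟩ := hν
        unfold hg at hb hy ⊢
        rcases h3 with h3 | h3 <;> rcases h4 with h4 | h4 <;> rw [h3, h4] at hb hy ⊢ <;> omega
      exact ⟨b, c, h2.1, h2.2, hbc, Co.refl _ _⟩

/-- a crossing makes an arm around every point of the middle line of the corridor -/
lemma OA_of_crs {ν z : ℤ × ℤ} (hν : Dg ν) {ρ R : ℤ} {κ : Finset (ℤ × ℤ)} (hR : 1 ≤ R)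
    (hκ : ∀ l ∈ κ, hl ν z l = 1 → |hl (prp ν) z l| ≤ 4 * ρ + 1)
    (h : Crs ν z (2 * R) κ) : Pool.Agent.H33.Q1.OA z ρ R κ := by
  obtain ⟨x, y, hxy, hx, hy⟩ := h
  obtain ⟨m, m', h1, h2, h3, h4⟩ := co_step hν hxy hx (by omega)
  have h5 : Co κ m y := (Relation.ReflTransGen.single h3).trans h4
  refine ⟨m, y, ?_, ?_, h5⟩
  · have h6 := hκ (m + m') h3.2 (by rw [hl_add, h1, h2]; norm_num)
    have h7 := unit_cases h3.1
    rw [hl_add] at h6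
    unfold Near
    rw [abs_le] at h6
    rw [abs_le, abs_le]
    obtain ⟨h8, h9⟩ := hν
    unfold hg prp at h6
    unfold hg at h1 h2
    simp only at h6
    rcases h8 with h8 | h8 <;> rcases h9 with h9 | h9 <;> rw [h8, h9] at h6 h1 h2 <;> omega
  · unfold Far
    rw [le_abs, le_abs]
    obtain ⟨h8, h9⟩ := hν
    unfold hg at hy
    rcases h8 with h8 | h8 <;> rcases h9 with h9 | h9 <;> rw [h8, h9] at hy <;> omega

/-- centres of the annuli -/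
def zc (ν z : ℤ × ℤ) (ρ : ℤ) (k : ℕ) : ℤ × ℤ :=
  (z.1 + ν.1 * (4 * ρ + (8 * ρ + 1) * k), z.2 + ν.2 * (4 * ρ + (8 * ρ + 1) * k))

lemma hg_zc {ν z : ℤ × ℤ} (hν : Dg ν) {ρ : ℤ} {k : ℕ} {v : ℤ × ℤ} :
    hg ν (zc ν z ρ k) v = hg ν z v - 2 * (4 * ρ + (8 * ρ + 1) * k) := by
  unfold hg zc
  simp only
  generalize (4 * ρ + (8 * ρ + 1) * (k : ℤ)) = t
  obtain ⟨h8, h9⟩ := hν
  rcases h8 with h8 | h8 <;> rcases h9 with h9 | h9 <;> rw [h8, h9] <;> ring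

lemma hl_zc {ν z : ℤ × ℤ} (hν : Dg ν) {ρ : ℤ} {k : ℕ} {l : ℤ × ℤ} :
    hl ν (zc ν z ρ k) l = hl ν z l - 4 * (4 * ρ + (8 * ρ + 1) * k) := by
  unfold hl zc
  simp only
  generalize (4 * ρ + (8 * ρ + 1) * (k : ℤ)) = t
  obtain ⟨h8, h9⟩ := hν
  rcases h8 with h8 | h8 <;> rcases h9 with h9 | h9 <;> rw [h8, h9] <;> ring

lemma hlp_zc {ν z : ℤ × ℤ} {ρ : ℤ} {k : ℕ} {l : ℤ × ℤ} :
    hl (prp ν) (zc ν z ρ k) l = hl (prp ν) z l := by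
  unfold hl zc prp
  simp only
  ring

lemma An_bounds {ν z : ℤ × ℤ} (hν : Dg ν) {ρ : ℤ} {l : ℤ × ℤ} {k : ℕ}
    (h : l ∈ An (zc ν z ρ k) ρ (4 * ρ)) :
    4 * ((8 * ρ + 1) * k) ≤ hl ν z l ∧ hl ν z l ≤ 4 * ((8 * ρ + 1) * k) + 32 * ρ := by
  have h1 := mem_Bx.1 (mem_sdiff.1 h).1
  have h2 := hl_zc hν (z := z) (ρ := ρ) (k := k) (l := l)
  unfold hl at h2
  unfold hl
  generalize hw : zc ν z ρ k = w at h1 h2
  generalize ((8 * ρ + 1) * (k : ℤ)) = t at h2 ⊢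
  obtain ⟨h8, h9⟩ := hν
  rcases h8 with h8 | h8 <;> rcases h9 with h9 | h9 <;> rw [h8, h9] at h2 ⊢ <;> omega

lemma An_disj {ν z : ℤ × ℤ} (hν : Dg ν) {ρ : ℤ} (hρ : 1 ≤ ρ) {j k : ℕ} (hjk : j < k) :
    Disjoint (An (zc ν z ρ j) ρ (4 * ρ)) (An (zc ν z ρ k) ρ (4 * ρ)) := by
  rw [Finset.disjoint_left]
  intro l h1 h2
  have h3 := An_bounds hν h1
  have h4 := An_bounds hν h2
  have h5 : (8 * ρ + 1) * (j : ℤ) + (8 * ρ + 1) ≤ (8 * ρ + 1) * k := by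
    have : (j : ℤ) + 1 ≤ k := by exact_mod_cast hjk
    nlinarith
  omega

/-- labels between the lines `0` and `M` -/
def Btw (ν z : ℤ × ℤ) (M : ℤ) (l : ℤ × ℤ) : Prop := 0 ≤ hl ν z l ∧ hl ν z l ≤ 2 * M

lemma Btw_of_An {ν z : ℤ × ℤ} (hν : Dg ν) {ρ M : ℤ} (hρ : 1 ≤ ρ) {n : ℕ}
    (hM : 2 * ((8 * ρ + 1) * n) ≤ M) {k : ℕ} (hk : k < n) {l : ℤ × ℤ}
    (h : l ∈ An (zc ν z ρ k) ρ (4 * ρ)) : Btw ν z M l := by
  have h3 := An_bounds hν h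
  have h5 : (8 * ρ + 1) * (k : ℤ) + (8 * ρ + 1) ≤ (8 * ρ + 1) * n := by
    have : (k : ℤ) + 1 ≤ n := by exact_mod_cast hk
    nlinarith
  have h6 : 0 ≤ (8 * ρ + 1) * (k : ℤ) := by positivity
  unfold Btw
  omega

lemma arms_of_crs {ν z : ℤ × ℤ} (hν : Dg ν) {ρ M : ℤ} (hρ : 1 ≤ ρ) {n : ℕ}
    (hM : 2 * ((8 * ρ + 1) * n) ≤ M) {κ : Finset (ℤ × ℤ)}
    (hκ : ∀ l ∈ κ, Btw ν z M l → |hl (prp ν) z l| ≤ 4 * ρ + 1) (h : Crs ν z M κ) :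
    ∀ k < n, Pool.Agent.H33.Q1.OA (zc ν z ρ k) ρ (4 * ρ) κ := by
  intro k hk
  have h5 : (8 * ρ + 1) * (k : ℤ) + (8 * ρ + 1) ≤ (8 * ρ + 1) * n := by
    have : (k : ℤ) + 1 ≤ n := by exact_mod_cast hk
    nlinarith
  have h6 : 0 ≤ (8 * ρ + 1) * (k : ℤ) := by positivity
  refine OA_of_crs hν (by omega) ?_ ?_
  · intro l hl1 hl2
    rw [hl_zc hν] at hl2
    rw [hlp_zc]
    refine hκ l hl1 ?_
    unfold Btw
    omega
  · obtain ⟨x, y, h1, h2, h3⟩ := h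
    refine ⟨x, y, h1, ?_, ?_⟩
    · rw [hg_zc hν]; omega
    · rw [hg_zc hν]; omega

/-- **No long open crossing of a natural corridor.** -/
theorem PB_crs_le : ∃ δ : ℝ, 0 < δ ∧ δ < 1 ∧ ∀ {β : Type} [DecidableEq β] (E : Finset (ℤ × ℤ))
    (b : ℤ × ℤ → β), (∀ l ∈ E, (l.1 + l.2) % 2 = 1) → ∀ (ν z : ℤ × ℤ) (ρ M : ℤ) (n : ℕ), Dg ν →
    (∀ l ∈ E, Btw ν z M l → |hl (prp ν) z l| ≤ 4 * ρ + 1) →
    (∀ l ∈ E, ∀ l' ∈ E, Btw ν z M l → Btw ν z M l' → b l = b l' → l = l') →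
    1 ≤ ρ → 2 * ((8 * ρ + 1) * n) ≤ M → PB E b (Crs ν z M) ≤ (1 - δ) ^ n := by
  obtain ⟨δ, h0, h1, h⟩ := PB_corr_le
  refine ⟨δ, h0, h1, fun {β} _ E b hodd ν z ρ M n hν hE hb hρ hM => ?_⟩
  refine le_trans (PB_mono fun ω hω hA =>
    arms_of_crs hν hρ hM (fun l hl' => hE l (hω hl')) hA) ?_
  refine h E b hodd (zc ν z ρ) ρ (4 * ρ) n (fun k _ j hj => An_disj hν hρ hj) ?_ hρ le_rfl
  have key : ∀ l ∈ E ∩ (range n).biUnion (fun k => An (zc ν z ρ k) ρ (4 * ρ)), l ∈ E ∧ Btw ν z M l := by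
    intro l hl'
    obtain ⟨h2, h3⟩ := mem_inter.1 hl'
    obtain ⟨k, hk, h4⟩ := mem_biUnion.1 h3
    exact ⟨h2, Btw_of_An hν hρ hM (mem_range.1 hk) h4⟩
  intro l hl1 l' hl2 he
  exact hb l (key l hl1).1 l' (key l' hl2).1 (key l hl1).2 (key l' hl2).2 he

/-- **No long dual crossing of a natural corridor.** -/
theorem PB_crsD_le : ∃ δ : ℝ, 0 < δ ∧ δ < 1 ∧ ∀ {β : Type} [DecidableEq β] (E : Finset (ℤ × ℤ))
    (b : ℤ × ℤ → β), (∀ l ∈ E, (l.1 + l.2) % 2 = 1) → ∀ (ν z : ℤ × ℤ) (ρ M : ℤ) (n : ℕ), Dg ν →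
    (∀ l ∈ E, Btw ν z M (sh1 l) → |hl (prp ν) z (sh1 l)| ≤ 4 * ρ + 1) →
    (∀ l ∈ E, ∀ l' ∈ E, Btw ν z M (sh1 l) → Btw ν z M (sh1 l') → b l = b l' → l = l') →
    1 ≤ ρ → 2 * ((8 * ρ + 1) * n) ≤ M →
    PB E b (fun ω => Crs ν z M (du E ω)) ≤ (1 - δ) ^ n := by
  obtain ⟨δ, h0, h1, h⟩ := PB_corrD_le
  refine ⟨δ, h0, h1, fun {β} _ E b hodd ν z ρ M n hν hE hb hρ hM => ?_⟩
  refine le_trans (PB_mono fun ω hω hA => arms_of_crs hν hρ hM (fun l hl' => ?_) hA) ?_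
  · obtain ⟨e, he, rfl⟩ := mem_map.1 (du_sub hl')
    exact hE e he
  refine h E b hodd (zc ν z ρ) ρ (4 * ρ) n (fun k _ j hj => An_disj hν hρ hj) ?_ hρ le_rfl
  have key : ∀ l ∈ DF ((range n).biUnion (fun k => An (zc ν z ρ k) ρ (4 * ρ))) E,
      l ∈ E ∧ Btw ν z M (sh1 l) := by
    intro l hl'
    obtain ⟨h2, h3⟩ := mem_DF.1 hl'
    obtain ⟨k, hk, h4⟩ := mem_biUnion.1 h3
    exact ⟨h2, Btw_of_An hν hρ hM (mem_range.1 hk) h4⟩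
  intro l hl1 l' hl2 he
  exact hb l (key l hl1).1 l' (key l' hl2).1 (key l hl1).2 (key l' hl2).2 he

end Pool.Agent.H65.W
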