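import Mathlib
import Pool.Agent.H65.W.Land4
import Pool.Agent.H6.W.JDef

set_option autoImplicit false
open Finset

/-!
# The bad landing events in the junction box (Route W, W-E, module E4)

`W` = any set of cells of the junction box, `E = TL W (2 h)`, centres `lz b g h s j` on the outer flat line
(`s = 1` ceiling, `s = -1` floor) at the abscissa `j H / g`, radii `lρ = 2 h (H / g + 1)`, `lR = h H / 2`.

* `BadO`, `BadD` : an open (dual) cluster lands in a window (half width `H / g`) and nowhere else near it;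
  `BadO_of_cluster`, `BadD_of_cluster`, locality `BadO_congr`, `BadD_congr` (labels `|Y| ≥ 2 h H`), bound
  `bad_le : PB ≤ C L / g`;
* `CorO`, `CorD` : crossings of the right corridor `L H / 2 ≤ x ≤ (L - 1) H`; `cor_le`.
-/

namespace Pool.Agent.H65.W

open Pool.Agent.H75.Perc hiding WL CT hh PB
open Pool.Agent.H75.TwoArm Pool.Agent.H75.Four Pool.Agent.H69.Q1 Pool.Agent.Q1
open Pool.Agent.H60.Q1 Pool.Agent.H20.Q1 Pool.Agent.H33.Q1
open Pool.Agent.Q1.M4 (Cell)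
open Pool.Agent.H58.W Pool.Agent.H50.W Pool.Agent.H6.W
open Pool.Agent.H41.W (Ni Tc tc_of_co)

/-- inner normal of the ceiling (`s = 1`) and of the floor (`s = -1`) -/
def nrm (s : ℤ) : ℤ × ℤ := (s, -s)

lemma Nrm_nrm {s : ℤ} (h : s = 1 ∨ s = -1) : Nrm (nrm s) := by
  right
  unfold nrm
  rcases h with rfl | rfl <;> simp

section det

variable {h H K g : ℕ} {s j : ℤ} {E κ ω : Finset (ℤ × ℤ)}

/-- centre of the pair of windows, `H`, `K` = half height and number of steps -/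
def cz (H K g h : ℕ) (s j : ℤ) : ℤ × ℤ :=
  (h * ((j * H) / g - s * (H + K)), h * ((j * H) / g + s * (H + K)))

/-- inner radius -/
def cρ (H g h : ℕ) : ℤ := 2 * (h * ((H / g : ℕ) + 1))

/-- outer radius -/
def cR (H h : ℕ) : ℤ := (h * H : ℕ) / 2

/-- the window, `p` = point of the tile frame; tolerance `e` cells of size `2 h` -/
def Wn (H g h : ℕ) (s j e : ℤ) (p : ℤ × ℤ) : Prop :=
  2 * (h * ((j - 1) * H)) - e * (2 * h * g) ≤ g * p.1 ∧
    g * p.1 ≤ 2 * (h * ((j + 1) * H)) + e * (2 * h * g) ∧ 2 * (h * H : ℤ) ≤ s * p.2 + 2 * h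

lemma Wn.mono {e e' : ℤ} {p : ℤ × ℤ} (h1 : Wn H g h s j e p) (he : e ≤ e') : Wn H g h s j e' p := by
  obtain ⟨h2, h3, h4⟩ := h1
  have h5 : e * (2 * h * g : ℤ) ≤ e' * (2 * h * g) :=
    mul_le_mul_of_nonneg_right he (by positivity)
  exact ⟨by linarith, by linarith, h4⟩

lemma near_win (hs : s = 1 ∨ s = -1) (hh : 0 < h) (hg0 : 0 < g) (hK : K + 4 ≤ H / g)
    {w : ℤ × ℤ} (h1 : Wn H g h s j 2 (tv w)) (h2 : s * (tv w).2 ≤ 2 * (h * (H + K) : ℤ)) :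
    Near (cz H K g h s j) (cρ H g h - 1) w := by
  obtain ⟨a1, a2, a3⟩ := h1
  have hgp : (0 : ℤ) < g := by exact_mod_cast hg0
  have hhp : (0 : ℤ) < h := by exact_mod_cast hh
  set q : ℤ := (j * H) / g with hq
  have q1 : (g : ℤ) * q ≤ j * H := by
    have := Int.ediv_mul_le (j * H) hgp.ne'
    rw [mul_comm]; exact this
  have q2 : j * H < g * q + g := by
    have := Int.lt_ediv_add_one_mul_self (j * H) hgp
    rw [add_mul, one_mul, mul_comm _ (g : ℤ)] at this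
    exact this
  set d : ℕ := H / g with hd
  have d1 : (H : ℤ) < g * d + g := by
    have := Nat.lt_mul_div_succ H hg0
    rw [← hd] at this
    have h3 : (H : ℤ) < g * (d + 1) := by exact_mod_cast this
    linarith
  -- bounds for X
  have x1 : (tv w).1 < 2 * (h * q) + 2 * h * d + 8 * h := by
    have h3 : (g : ℤ) * (tv w).1 < g * (2 * (h * q) + 2 * h * d + 8 * h) := by
      have h4 : 2 * (h * ((j + 1) * H) : ℤ) < 2 * (h * (g * q + g + (g * d + g))) := by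
        have : (j + 1) * H < g * q + g + (g * d + g : ℤ) := by linarith
        have := mul_lt_mul_of_pos_left this hhp
        linarith
      nlinarith
    exact lt_of_mul_lt_mul_left h3 hgp.le
  have x2 : 2 * (h * q) - 2 * h * d - 8 * h < (tv w).1 := by
    have h3 : (g : ℤ) * (2 * (h * q) - 2 * h * d - 8 * h) < g * (tv w).1 := by
      have h4 : 2 * (h * (g * q - (g * d + g)) : ℤ) < 2 * (h * ((j - 1) * H)) := by
        have : (g * q - (g * d + g) : ℤ) < (j - 1) * H := by linarith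
        have := mul_lt_mul_of_pos_left this hhp
        linarith
      nlinarith
    exact lt_of_mul_lt_mul_left h3 hgp.le
  have hKd : (h : ℤ) * K + 4 * h ≤ h * d := by
    have : (K : ℤ) + 4 ≤ d := by exact_mod_cast hK
    nlinarith
  unfold Near cz cρ
  rw [← hq, ← hd]
  unfold tv at x1 x2 a3 h2
  simp only at x1 x2 a3 h2 ⊢
  have e1 : (h : ℤ) * (q - s * (H + K)) = h * q - s * (h * H + h * K) := by ring
  have e2 : (h : ℤ) * (q + s * (H + K)) = h * q + s * (h * H + h * K) := by ring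
  have e3 : 2 * ((h : ℤ) * (d + 1)) = 2 * (h * d) + 2 * h := by ring
  have e4 : 2 * (h * (H + K) : ℤ) = 2 * (h * H) + 2 * (h * K) := by ring
  have e5 : 2 * (h : ℤ) * d = 2 * (h * d) := by ring
  rw [e1, e2, e3, abs_le, abs_le]
  rw [e4] at h2
  rw [e5] at x1 x2
  generalize (h : ℤ) * q = A at *
  generalize (h : ℤ) * d = D at *
  generalize (h : ℤ) * H = T at *
  generalize (h : ℤ) * K = U at *
  rcases hs with rfl | rfl <;> refine ⟨⟨?_, ?_⟩, ?_, ?_⟩ <;> linarith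

/-- the labels lie below the outer line -/
def Below (H K h : ℕ) (E : Finset (ℤ × ℤ)) : Prop :=
  ∀ l ∈ E, |l.2 - l.1| < 4 * (h * (H + K) : ℤ)

/-- **A cluster which lands in the window only.** -/
theorem LB_of_window (hs : s = 1 ∨ s = -1) (hh : 0 < h) (hg0 : 0 < g) (hK : K + 4 ≤ H / g)
    (hρR : cρ H g h < cR H h) (hodd : ∀ l ∈ E, (l.1 + l.2) % 2 = 1) (hE : Below H K h E)
    (hκ : κ ⊆ E) {x y0 : ℤ × ℤ} (hx : s * (tv x).2 ≤ h * H) (hy0 : Co κ x y0) (hN : Ni E y0)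
    (hall : ∀ y, Co κ x y → Ni E y → Wn H g h s j 2 (tv y)) :
    LB (nrm s) (cz H K g h s j) (cρ H g h) (cR H h) E κ := by
  have hhp : (0 : ℤ) < h := by exact_mod_cast hh
  -- cluster vertices with a window position are near
  have key : ∀ y, Co κ x y → Ni E y → Near (cz H K g h s j) (cρ H g h - 1) y := by
    intro y hy hNy
    have h1 := hall y hy hNy
    refine near_win hs hh hg0 hK h1 ?_
    by_cases hxy : x = y
    · rw [← hxy]
      have : (0 : ℤ) ≤ h * H := by positivity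
      have h3 : (0 : ℤ) ≤ h * K := by positivity
      have e4 : 2 * (h * (H + K) : ℤ) = 2 * (h * H) + 2 * (h * K) := by ring
      rw [e4]
      linarith
    · obtain ⟨q, hq1, hq2⟩ := tc_of_co hy hxy
      have h3 := hE _ (hκ hq2)
      have h4 := unit_cases hq1
      rw [abs_lt] at h3
      simp only [Prod.fst_add, Prod.snd_add] at h3
      have e4 : 4 * (h * (H + K) : ℤ) = 2 * (2 * (h * (H + K))) := by ring
      rw [e4] at h3
      generalize 2 * (h * (H + K) : ℤ) = T at *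
      unfold tv
      simp only
      rcases hs with rfl | rfl <;> omega
  refine LB_of_cluster (x := x) (y := y0) (Nrm_nrm hs) hρR hodd ?_ hκ hy0.symm ?_ ?_ ?_
  · intro l hlE _
    have h3 := hE l hlE
    rw [abs_lt] at h3
    unfold hl nrm cz
    simp only
    have e4 : 4 * (h * (H + K) : ℤ) = 4 * (h * H + h * K) := by ring
    have e1 : ∀ q : ℤ, (h : ℤ) * (q - s * (H + K)) = h * q - s * (h * H + h * K) := fun q => by ring
    have e2 : ∀ q : ℤ, (h : ℤ) * (q + s * (H + K)) = h * q + s * (h * H + h * K) := fun q => by ring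
    rw [e1, e2]
    rw [e4] at h3
    rcases hs with rfl | rfl <;> linarith
  · exact Near.near (by omega) (key y0 hy0 hN)
  · unfold Far cz cR
    simp only
    have e1 : ∀ q : ℤ, (h : ℤ) * (q - s * (H + K)) = h * q - s * (h * H + h * K) := fun q => by ring
    have e2 : ∀ q : ℤ, (h : ℤ) * (q + s * (H + K)) = h * q + s * (h * H + h * K) := fun q => by ring
    rw [e1, e2, le_abs, le_abs]
    have h3 : (0 : ℤ) ≤ h * K := by positivity
    have h5 : (0 : ℤ) ≤ h * H := by positivity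
    unfold tv at hx
    simp only at hx
    push_cast
    generalize (h : ℤ) * ((j * H) / g) = A at *
    generalize (h : ℤ) * H = T at *
    generalize (h : ℤ) * K = U at *
    rcases hs with rfl | rfl <;> omega
  · intro w hw _ hwn d hd
    by_contra hcon
    refine hwn (key w hw ⟨w + d, ?_, hcon⟩)
    rw [add_sub_cancel_left]
    exact hd

/-- labels at height `≥ H / 2` -/
noncomputable def Hi (H h : ℕ) (E : Finset (ℤ × ℤ)) : Finset (ℤ × ℤ) := by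
  classical exact E.filter fun l => 2 * (h * H : ℤ) ≤ |l.2 - l.1|

lemma mem_Hi {l : ℤ × ℤ} : l ∈ Hi H h E ↔ l ∈ E ∧ 2 * (h * H : ℤ) ≤ |l.2 - l.1| := by
  unfold Hi
  rw [mem_filter]

lemma Hi_sub : Hi H h E ⊆ E := fun _ hl' => (mem_Hi.1 hl').1

lemma hi_of_HA (hs : s = 1 ∨ s = -1) {l : ℤ × ℤ} {ρ : ℤ}
    (hl' : l ∈ HA (nrm s) (cz H K g h s j) ρ (cR H h)) : 2 * (h * H : ℤ) ≤ |l.2 - l.1| := by
  have h1 := mem_Bx.1 (mem_HA.1 hl').1.1
  have e1 : ∀ q : ℤ, (h : ℤ) * (q - s * (H + K)) = h * q - s * (h * H + h * K) := fun q => by ring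
  have e2 : ∀ q : ℤ, (h : ℤ) * (q + s * (H + K)) = h * q + s * (h * H + h * K) := fun q => by ring
  unfold cz cR at h1
  simp only at h1
  rw [e1, e2] at h1
  push_cast at h1
  have h3 : (0 : ℤ) ≤ h * K := by positivity
  rw [le_abs]
  generalize (h : ℤ) * ((j * H) / g) = A at *
  generalize (h : ℤ) * H = T at *
  generalize (h : ℤ) * K = U at *
  rcases hs with rfl | rfl <;> omega

lemma HA_sub_Hi (hs : s = 1 ∨ s = -1) {ρ : ℤ} :
    E ∩ HA (nrm s) (cz H K g h s j) ρ (cR H h) ⊆ Hi H h E := fun _ hl' =>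
  mem_Hi.2 ⟨(mem_inter.1 hl').1, hi_of_HA hs (mem_inter.1 hl').2⟩

lemma HD_sub_Hi (hs : s = 1 ∨ s = -1) {ρ : ℤ} :
    HD (nrm s) (cz H K g h s j) ρ (cR H h) E ⊆ Hi H h E := by
  intro l hl'
  obtain ⟨h1, h2⟩ := mem_HD.1 hl'
  have h3 := hi_of_HA hs h2
  refine mem_Hi.2 ⟨h1, ?_⟩
  have : (sh1 l).2 - (sh1 l).1 = l.2 - l.1 := by
    show l.2 + 1 - (l.1 + 1) = _
    ring
  rwa [this] at h3

/-- signs -/
noncomputable def Sg : Finset ℤ := {1, -1}

lemma mem_Sg {s : ℤ} : s ∈ Sg ↔ s = 1 ∨ s = -1 := by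
  unfold Sg
  rw [mem_insert, mem_singleton]

/-- **bad landing, open** -/
def BadO (H K L g h : ℕ) (E ω : Finset (ℤ × ℤ)) : Prop :=
  ∃ s ∈ Sg, ∃ j ∈ Icc (-(L * g : ℤ)) (L * g),
    LB (nrm s) (cz H K g h s j) (cρ H g h) (cR H h) E ω

/-- **bad landing, dual** -/
def BadD (H K L g h : ℕ) (E ω : Finset (ℤ × ℤ)) : Prop :=
  ∃ s ∈ Sg, ∃ j ∈ Icc (-(L * g : ℤ)) (L * g),
    LD (nrm s) (cz H K g h s j) (cρ H g h) (cR H h) E ω

variable {L : ℕ}

lemma BadO_inter {F : Finset (ℤ × ℤ)} (hF : Hi H h E ⊆ F) (hω : ω ⊆ E) :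
    BadO H K L g h E ω ↔ BadO H K L g h E (ω ∩ F) := by
  unfold BadO
  refine exists_congr fun s => and_congr_right fun hs => exists_congr fun j =>
    and_congr_right fun _ => ?_
  exact LB_local ((HA_sub_Hi (mem_Sg.1 hs)).trans hF) hω

/-- the event is read at height `≥ H / 2` -/
lemma BadO_congr {ω' : Finset (ℤ × ℤ)} (h1 : ω ⊆ E) (h2 : ω' ⊆ E)
    (h3 : ω ∩ Hi H h E = ω' ∩ Hi H h E) : BadO H K L g h E ω ↔ BadO H K L g h E ω' := by
  rw [BadO_inter (Finset.Subset.refl _) h1, h3, ← BadO_inter (Finset.Subset.refl _) h2]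

lemma BadD_inter {F : Finset (ℤ × ℤ)} (hF : Hi H h E ⊆ F) :
    BadD H K L g h E ω ↔ BadD H K L g h E (ω ∩ F) := by
  have key : ∀ η : Finset (ℤ × ℤ), BadD H K L g h E η ↔ BadD H K L g h E (η ∩ Hi H h E) := by
    intro η
    unfold BadD
    refine exists_congr fun s => and_congr_right fun hs => exists_congr fun j =>
      and_congr_right fun _ => ?_
    exact LD_local' (HD_sub_Hi (mem_Sg.1 hs)) Hi_sub
  rw [key ω, key (ω ∩ F), inter_assoc, inter_eq_right.2 hF]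

lemma BadD_congr {ω' : Finset (ℤ × ℤ)} (h3 : ω ∩ Hi H h E = ω' ∩ Hi H h E) :
    BadD H K L g h E ω ↔ BadD H K L g h E ω' := by
  rw [BadD_inter (Finset.Subset.refl _), h3, ← BadD_inter (Finset.Subset.refl _)]

/-- **An open cluster which lands in a window only.** -/
theorem BadO_of_cluster (hs : s = 1 ∨ s = -1) (hj : -(L * g : ℤ) ≤ j) (hj' : j ≤ L * g)
    (hh : 0 < h) (hg0 : 0 < g) (hK : K + 4 ≤ H / g)
    (hρR : cρ H g h < cR H h) (hodd : ∀ l ∈ E, (l.1 + l.2) % 2 = 1) (hE : Below H K h E)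
    (hκ : κ ⊆ E) {x y0 : ℤ × ℤ} (hx : s * (tv x).2 ≤ h * H) (hy0 : Co κ x y0) (hN : Ni E y0)
    (hall : ∀ y, Co κ x y → Ni E y → Wn H g h s j 2 (tv y)) : BadO H K L g h E κ :=
  ⟨s, mem_Sg.2 hs, j, mem_Icc.2 ⟨hj, hj'⟩, LB_of_window hs hh hg0 hK hρR hodd hE hκ hx hy0 hN hall⟩

lemma Below.map (hE : Below H K h E) : Below H K h (E.map sh1) := by
  intro l hl'
  obtain ⟨e, he, rfl⟩ := mem_map.1 hl'
  have := hE e he
  have h1 : (sh1 e).2 - (sh1 e).1 = e.2 - e.1 := by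
    show e.2 + 1 - (e.1 + 1) = _
    ring
  rwa [h1]

lemma tv_tf (y : ℤ × ℤ) : tv y = ((tf y).1 + 1, (tf y).2) := by
  unfold tv tf
  refine Prod.ext ?_ ?_ <;> simp

lemma Wn_tf (hh : 0 < h) {y : ℤ × ℤ} (h1 : Wn H g h s j 1 (tf y)) : Wn H g h s j 2 (tv y) := by
  obtain ⟨a1, a2, a3⟩ := h1
  rw [tv_tf]
  have h2 : (g : ℤ) ≤ 2 * h * g := by
    have : (1 : ℤ) ≤ h := by exact_mod_cast hh
    nlinarith [Int.natCast_nonneg g]
  refine ⟨?_, ?_, a3⟩ <;> simp only [mul_add, mul_one] <;> nlinarith [Int.natCast_nonneg g]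

/-- **A dual cluster which lands in a window only.** -/
theorem BadD_of_cluster (hs : s = 1 ∨ s = -1) (hj : -(L * g : ℤ) ≤ j) (hj' : j ≤ L * g)
    (hh : 0 < h) (hg0 : 0 < g) (hK : K + 4 ≤ H / g)
    (hρR : cρ H g h < cR H h) (hodd : ∀ l ∈ E, (l.1 + l.2) % 2 = 1) (hE : Below H K h E)
    {x y0 : ℤ × ℤ} (hx : s * (tf x).2 ≤ h * H) (hy0 : Co (du E ω) x y0) (hN : Ni (E.map sh1) y0)
    (hall : ∀ y, Co (du E ω) x y → Ni (E.map sh1) y → Wn H g h s j 1 (tf y)) :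
    BadD H K L g h E ω := by
  refine ⟨s, mem_Sg.2 hs, j, mem_Icc.2 ⟨hj, hj'⟩, ?_⟩
  exact LB_of_window hs hh hg0 hK hρR (odd_map hodd) hE.map du_sub
    (by rw [tv_tf]; exact hx) hy0 hN fun y h1 h2 => Wn_tf hh (hall y h1 h2)

/-! ### Probability -/

lemma rad_le (hh : 0 < h) (hg0 : 0 < g) (hH : 4 ≤ H / g) :
    1 ≤ cρ H g h ∧ 1 ≤ cR H h ∧ cρ H g h * g ≤ 10 * cR H h := by
  have hhp : (1 : ℤ) ≤ h := by exact_mod_cast hh
  have h1 : (g : ℤ) * (H / g : ℕ) ≤ H := by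
    have := Nat.mul_div_le H g
    exact_mod_cast this
  have h2 : (4 : ℤ) ≤ (H / g : ℕ) := by exact_mod_cast hH
  have hgp : (1 : ℤ) ≤ g := by exact_mod_cast hg0
  generalize hD : ((H / g : ℕ) : ℤ) = D at *
  unfold cρ cR
  rw [hD]
  push_cast
  have h3 : (g : ℤ) * 4 ≤ H := by nlinarith
  have h4 : (4 : ℤ) ≤ h * H := by nlinarith
  have h5 : 2 * (2 * ((h : ℤ) * (D + 1)) * g) ≤ 5 * (h * H) := by
    have : (h : ℤ) * (g * D) ≤ h * H := mul_le_mul_of_nonneg_left h1 (by positivity)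
    have h6 : (h : ℤ) * (g * 4) ≤ h * H := mul_le_mul_of_nonneg_left h3 (by positivity)
    nlinarith
  have h7 : (1 : ℤ) ≤ h * (D + 1) := by nlinarith
  refine ⟨by omega, by omega, ?_⟩
  omega

/-- **The bad landing events have probability at most `C L / g`.** -/
theorem bad_le : ∃ C : ℝ, 0 < C ∧ ∀ {β : Type} [DecidableEq β] (E : Finset (ℤ × ℤ))
    (b : ℤ × ℤ → β) (H K L g h : ℕ), 0 < L → 0 < g → 0 < h → 4 ≤ H / g → Nat1 b (Hi H h E) →
    PB E b (fun ω => BadO H K L g h E ω ∨ BadD H K L g h E ω) ≤ C * (L / g) := by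
  obtain ⟨C1, hC1, h1⟩ := PB_LB_le
  obtain ⟨C2, hC2, h2⟩ := PB_LD_le
  refine ⟨600 * (C1 + C2), by positivity, ?_⟩
  intro β _ E b H K L g h hL hg0 hh hH hb
  obtain ⟨r1, r2, r3⟩ := rad_le hh hg0 hH
  have hgR : (0 : ℝ) < g := by exact_mod_cast hg0
  have hLR : (1 : ℝ) ≤ L := by exact_mod_cast hL
  have hg1 : (1 : ℝ) ≤ g := by exact_mod_cast hg0
  have hRR : (0 : ℝ) < cR H h := by
    have : (1 : ℝ) ≤ cR H h := by exact_mod_cast r2
    linarith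
  have hρ0 : (0 : ℝ) ≤ cρ H g h := by
    have : (1 : ℝ) ≤ cρ H g h := by exact_mod_cast r1
    linarith
  have hq : ((cρ H g h : ℝ) / cR H h) ^ 2 ≤ 100 / (g : ℝ) ^ 2 := by
    have h3 : (cρ H g h : ℝ) / cR H h ≤ 10 / g := by
      rw [div_le_div_iff₀ hRR hgR]
      exact_mod_cast r3
    calc ((cρ H g h : ℝ) / cR H h) ^ 2 ≤ (10 / g) ^ 2 :=
          pow_le_pow_left₀ (by positivity) h3 2
      _ = 100 / (g : ℝ) ^ 2 := by rw [div_pow]; norm_num
  have hcard : ((Icc (-(L * g : ℤ)) (L * g)).card : ℝ) ≤ 3 * (L * g) := by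
    rw [Int.card_Icc]
    have h3 : ((L * g : ℤ) + 1 - -(L * g)).toNat = 2 * (L * g) + 1 := by
      have : (0 : ℤ) ≤ L * g := by positivity
      zify
      rw [Int.toNat_of_nonneg (by linarith)]
      ring
    rw [h3]
    push_cast
    nlinarith
  have hsum : ∀ (C : ℝ) (p : ℤ → ℤ → ℝ), 0 < C →
      (∀ s ∈ Sg, ∀ j ∈ Icc (-(L * g : ℤ)) (L * g), p s j ≤ C * ((cρ H g h : ℝ) / cR H h) ^ 2) →
      ∑ s ∈ Sg, ∑ j ∈ Icc (-(L * g : ℤ)) (L * g), p s j ≤ 600 * C * (L / g) := by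
    intro C p hC hp
    have hSg : Sg.card = 2 := by
      unfold Sg
      exact card_pair (by norm_num)
    calc ∑ s ∈ Sg, ∑ j ∈ Icc (-(L * g : ℤ)) (L * g), p s j
        ≤ ∑ _s ∈ Sg, ∑ _j ∈ Icc (-(L * g : ℤ)) (L * g), C * (100 / (g : ℝ) ^ 2) :=
          sum_le_sum fun s hs => sum_le_sum fun j hj =>
            (hp s hs j hj).trans (mul_le_mul_of_nonneg_left hq hC.le)
      _ = 2 * ((Icc (-(L * g : ℤ)) (L * g)).card * (C * (100 / (g : ℝ) ^ 2))) := by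
          rw [sum_const, sum_const, hSg, nsmul_eq_mul, nsmul_eq_mul]
          norm_num
      _ ≤ 2 * (3 * (L * g) * (C * (100 / (g : ℝ) ^ 2))) := by
          have : (0 : ℝ) ≤ C * (100 / (g : ℝ) ^ 2) := by positivity
          have := mul_le_mul_of_nonneg_right hcard this
          linarith
      _ = 600 * C * (L / g) := by
          field_simp
          norm_num
  refine (PB_or_le E b _ _).trans ?_
  have e1 : PB E b (BadO H K L g h E) ≤ 600 * C1 * (L / g) := by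
    unfold BadO
    refine (PB_exists_le E b Sg _).trans ?_
    refine (sum_le_sum fun s _ => PB_exists_le E b (Icc (-(L * g : ℤ)) (L * g)) _).trans ?_
    exact hsum C1 _ hC1 fun s hs j _ => h1 E b _ _ _ _ (Nrm_nrm (mem_Sg.1 hs))
      (hb.mono (HA_sub_Hi (mem_Sg.1 hs))) r1 r2
  have e2 : PB E b (BadD H K L g h E) ≤ 600 * C2 * (L / g) := by
    unfold BadD
    refine (PB_exists_le E b Sg _).trans ?_
    refine (sum_le_sum fun s _ => PB_exists_le E b (Icc (-(L * g : ℤ)) (L * g)) _).trans ?_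
    exact hsum C2 _ hC2 fun s hs j _ => h2 E b _ _ _ _ (Nrm_nrm (mem_Sg.1 hs))
      (hb.mono (HD_sub_Hi (mem_Sg.1 hs))) r1 r2
  linarith

/-! ### Right corridor -/

/-- a crossing takes place between the two lines -/
lemma Crs_local {ν z : ℤ × ℤ} (hν : Dg ν) {M : ℤ} (hM : 0 < M) {κ κ' : Finset (ℤ × ℤ)}
    (h : Crs ν z M κ) (hκ : ∀ l ∈ κ, Btw ν z M l → l ∈ κ') : Crs ν z M κ' := by
  obtain ⟨x, y, hxy, hx, hy⟩ := h
  have key : ∀ c, Co κ x c → Crs ν z M κ' ∨ hg ν z c ≤ 0 ∨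
      (∃ u, hg ν z u = 0 ∧ Co κ' u c ∧ 0 < hg ν z c ∧ hg ν z c < M) := by
    intro c hc
    induction hc with
    | refl => exact Or.inr (Or.inl hx)
    | @tail c d _ hcd ih =>
      have hst : hg ν z d = hg ν z c + 1 ∨ hg ν z d = hg ν z c - 1 := by
        have h1 := unit_cases hcd.1
        obtain ⟨h3, h4⟩ := hν
        unfold hg
        rcases h3 with h3 | h3 <;> rcases h4 with h4 | h4 <;> rw [h3, h4] <;> omega
      have hl1 : hl ν z (c + d) = hg ν z c + hg ν z d := hl_add _ _ _ _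
      have go : ∀ u, hg ν z u = 0 → Co κ' u c → 0 ≤ hg ν z c → hg ν z c < M →
          Crs ν z M κ' ∨ hg ν z d ≤ 0 ∨
            (∃ u, hg ν z u = 0 ∧ Co κ' u d ∧ 0 < hg ν z d ∧ hg ν z d < M) := by
        intro u hu huc h0 h1
        by_cases hd0 : hg ν z d ≤ 0
        · exact Or.inr (Or.inl hd0)
        · have hud : Co κ' u d := huc.tail ⟨hcd.1, hκ _ hcd.2 (by unfold Btw; omega)⟩
          by_cases hdM : hg ν z d < M
          · exact Or.inr (Or.inr ⟨u, hu, hud, by omega, hdM⟩)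
          · exact Or.inl ⟨u, d, hud, by omega, by omega⟩
      rcases ih with ih | ih | ⟨u, h1, h2, h3, h4⟩
      · exact Or.inl ih
      · rcases hst with h5 | h5
        · by_cases h6 : hg ν z c = 0
          · exact go c h6 (Co.refl _ _) (by omega) (by omega)
          · exact Or.inr (Or.inl (by omega))
        · exact Or.inr (Or.inl (by omega))
      · exact go u h1 h2 (by omega) h4
  rcases key y hxy with h1 | h1 | ⟨u, -, -, -, h1⟩
  · exact h1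
  · omega
  · omega

/-- labels with abscissa `≥ L H / 2` -/
noncomputable def Rt (H L h : ℕ) (E : Finset (ℤ × ℤ)) : Finset (ℤ × ℤ) := by
  classical exact E.filter fun l => 2 * (h * (L * H) : ℤ) ≤ l.1 + l.2

lemma mem_Rt {l : ℤ × ℤ} : l ∈ Rt H L h E ↔ l ∈ E ∧ 2 * (h * (L * H) : ℤ) ≤ l.1 + l.2 := by
  unfold Rt
  rw [mem_filter]

lemma Rt_sub : Rt H L h E ⊆ E := fun _ hl' => (mem_Rt.1 hl').1

/-- the start of the right corridor -/
def ca (H L h : ℕ) : ℤ := (h * (L * H) : ℕ) / 2 + 1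

/-- the length of the right corridor -/
def cM (H L h : ℕ) : ℤ := h * ((L - 2) * H) - 2

/-- **right corridor, open crossing** -/
def CorO (H L h : ℕ) (E ω : Finset (ℤ × ℤ)) : Prop :=
  Crs (1, 1) (ca H L h, ca H L h) (cM H L h) (ω ∩ Rt H L h E)

/-- **right corridor, dual crossing** -/
def CorD (H L h : ℕ) (E ω : Finset (ℤ × ℤ)) : Prop :=
  Crs (1, 1) (ca H L h, ca H L h) (cM H L h) (du (Rt H L h E) ω)

lemma CorO_inter {F : Finset (ℤ × ℤ)} (hF : Rt H L h E ⊆ F) :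
    CorO H L h E ω ↔ CorO H L h E (ω ∩ F) := by
  unfold CorO
  rw [inter_assoc, inter_eq_right.2 hF]

lemma CorD_inter {F : Finset (ℤ × ℤ)} (hF : Rt H L h E ⊆ F) :
    CorD H L h E ω ↔ CorD H L h E (ω ∩ F) := by
  unfold CorD
  have : du (Rt H L h E) ω = du (Rt H L h E) (ω ∩ F) := by
    ext l
    rw [mem_du', mem_du']
    constructor
    · rintro ⟨e, h1, h2, h3⟩
      exact ⟨e, h1, fun h4 => h2 (mem_inter.1 h4).1, h3⟩
    · rintro ⟨e, h1, h2, h3⟩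
      exact ⟨e, h1, fun h4 => h2 (mem_inter.2 ⟨h4, hF h1⟩), h3⟩
  rw [this]

lemma Dg11 : Dg (1, 1) := ⟨Or.inl rfl, Or.inl rfl⟩

lemma hl11 {a : ℤ} {l : ℤ × ℤ} : hl (1, 1) (a, a) l = l.1 + l.2 - 4 * a := by
  unfold hl
  ring

lemma hg11 {a : ℤ} {v : ℤ × ℤ} : hg (1, 1) (a, a) v = v.1 + v.2 - 2 * a := by
  unfold hg
  ring

/-- **An open cluster which reaches far to the right.** -/
theorem CorO_of_cluster (hκ : κ ⊆ E) (hκω : κ ⊆ ω) (hM : 0 < cM H L h) {x y : ℤ × ℤ}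
    (hxy : Co κ x y) (hx : (tv x).1 ≤ h * (L * H)) (hy : 2 * (h * ((L - 1) * H) : ℤ) ≤ (tv y).1) :
    CorO H L h E ω := by
  have e3 : 2 * (h * ((L - 1) * H) : ℤ) = h * ((L - 2) * H) + h * (L * H) := by ring
  rw [e3] at hy
  unfold tv at hx hy
  simp only at hx hy
  have h0 : Crs (1, 1) (ca H L h, ca H L h) (cM H L h) κ := by
    refine ⟨x, y, hxy, ?_, ?_⟩ <;> rw [hg11] <;> unfold ca <;> push_cast
    · omega
    · unfold cM
      omega
  refine Crs_local Dg11 hM h0 fun l hl1 hl2 => ?_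
  have h1 := hl2.1
  rw [hl11] at h1
  refine mem_inter.2 ⟨hκω hl1, mem_Rt.2 ⟨hκ hl1, ?_⟩⟩
  unfold ca at h1
  push_cast at h1
  omega

/-- **A dual cluster which reaches far to the right.** -/
theorem CorD_of_cluster {ω' : Finset (ℤ × ℤ)} (hω : ω ⊆ ω') (hM : 0 < cM H L h) {x y : ℤ × ℤ}
    (hxy : Co (du E ω') x y) (hx : (tf x).1 ≤ h * (L * H))
    (hy : 2 * (h * ((L - 1) * H) : ℤ) ≤ (tf y).1) : CorD H L h E ω := by
  have e3 : 2 * (h * ((L - 1) * H) : ℤ) = h * ((L - 2) * H) + h * (L * H) := by ring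
  rw [e3] at hy
  unfold tf at hx hy
  simp only at hx hy
  have h0 : Crs (1, 1) (ca H L h, ca H L h) (cM H L h) (du E ω') := by
    refine ⟨x, y, hxy, ?_, ?_⟩ <;> rw [hg11] <;> unfold ca <;> push_cast
    · omega
    · unfold cM
      omega
  refine Crs_local Dg11 hM h0 fun l hl1 hl2 => ?_
  have h1 := hl2.1
  rw [hl11] at h1
  rw [mem_du'] at hl1 ⊢
  obtain ⟨e, he1, he2, rfl⟩ := hl1
  refine ⟨e, mem_Rt.2 ⟨he1, ?_⟩, fun h2 => he2 (hω h2), rfl⟩
  have h2 : (sh1 e).1 + (sh1 e).2 = e.1 + e.2 + 2 := by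
    show e.1 + 1 + (e.2 + 1) = _
    ring
  rw [h2] at h1
  unfold ca at h1
  push_cast at h1
  omega

/-- **The crossings of the right corridor**: at most `2 (1 - δ) ^ n` for `L ≥ 22 n + 4`. -/
theorem cor_le : ∃ δ : ℝ, 0 < δ ∧ δ < 1 ∧ ∀ {β : Type} [DecidableEq β] (E : Finset (ℤ × ℤ))
    (b : ℤ × ℤ → β) (H K L h n : ℕ), (∀ l ∈ E, (l.1 + l.2) % 2 = 1) → Below H K h E →
    0 < h → 0 < H → 4 * K ≤ H → 22 * n + 4 ≤ L → Nat1 b (Rt H L h E) →
    PB E b (fun ω => CorO H L h E ω ∨ CorD H L h E ω) ≤ 2 * (1 - δ) ^ n := by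
  obtain ⟨δ1, a0, a1, h1⟩ := PB_crs_le
  obtain ⟨δ2, b0, b1, h2⟩ := PB_crsD_le
  refine ⟨min δ1 δ2, lt_min a0 b0, min_lt_of_left_lt a1, ?_⟩
  intro β _ E b H K L h n hodd hE hh hH hK hL hb
  have hhp : (1 : ℤ) ≤ h := by exact_mod_cast hh
  have hHp : (1 : ℤ) ≤ H := by exact_mod_cast hH
  have hKp : 4 * (K : ℤ) ≤ H := by exact_mod_cast hK
  have hLp : 22 * (n : ℤ) + 4 ≤ L := by exact_mod_cast hL
  set ρ : ℤ := h * (H + K) with hρ
  have hhH : (1 : ℤ) ≤ h * H := by nlinarith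
  have hρ1 : 1 ≤ ρ := by nlinarith [Int.natCast_nonneg K]
  have hρ2 : 4 * ρ ≤ 5 * (h * H) := by
    have : (h : ℤ) * (4 * K) ≤ h * H := mul_le_mul_of_nonneg_left hKp (by positivity)
    rw [hρ]
    nlinarith
  have hM : 2 * ((8 * ρ + 1) * n) ≤ cM H L h := by
    have h3 : (8 * ρ + 1) * (n : ℤ) ≤ 11 * (h * H) * n :=
      mul_le_mul_of_nonneg_right (by linarith) (by positivity)
    have h4 : (h * H : ℤ) * (22 * n + 4) ≤ (h * H) * L :=
      mul_le_mul_of_nonneg_left hLp (by positivity)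
    unfold cM
    nlinarith
  have hw : ∀ l ∈ E, |hl (prp (1, 1)) (ca H L h, ca H L h) l| ≤ 4 * ρ + 1 := by
    intro l hlE
    have h3 := hE l hlE
    have h4 : hl (prp (1, 1)) (ca H L h, ca H L h) l = l.2 - l.1 := by
      unfold hl prp
      ring
    rw [h4]
    linarith
  have hw' : ∀ l ∈ E, |hl (prp (1, 1)) (ca H L h, ca H L h) (sh1 l)| ≤ 4 * ρ + 1 := by
    intro l hlE
    have h3 := hw l hlE
    have h4 : hl (prp (1, 1)) (ca H L h, ca H L h) (sh1 l) =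
        hl (prp (1, 1)) (ca H L h, ca H L h) l := by
      unfold hl prp
      show -1 * (l.1 + 1 - _) + 1 * (l.2 + 1 - _) = _
      ring
    rwa [h4]
  refine (PB_or_le E b _ _).trans ?_
  have p0 : ∀ δ : ℝ, min δ1 δ2 ≤ δ → δ < 1 → (1 - δ) ^ n ≤ (1 - min δ1 δ2) ^ n := by
    intro δ h3 h4
    exact pow_le_pow_left₀ (by linarith) (by linarith) n
  have e1 : PB E b (CorO H L h E) ≤ (1 - δ1) ^ n := by
    have h5 : PB E b (CorO H L h E) ≤ PB (Rt H L h E) b (Crs (1, 1) (ca H L h, ca H L h) (cM H L h)) := by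
      rw [← PB_restrict Rt_sub b (Crs (1, 1) (ca H L h, ca H L h) (cM H L h))]
      exact PB_mono fun ω _ h => h
    refine h5.trans (h1 (Rt H L h E) b (fun l hl' => hodd l (Rt_sub hl')) (1, 1) _ ρ _ n Dg11
      (fun l hl' _ => hw l (Rt_sub hl')) (fun l h3 l' h4 _ _ he => hb l h3 l' h4 he) hρ1 hM)
  have e2 : PB E b (CorD H L h E) ≤ (1 - δ2) ^ n := by
    have h5 : PB E b (CorD H L h E) ≤ PB (Rt H L h E) b
        (fun ω => Crs (1, 1) (ca H L h, ca H L h) (cM H L h) (du (Rt H L h E) ω)) := by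
      rw [← PB_restrict Rt_sub b
        (fun ω => Crs (1, 1) (ca H L h, ca H L h) (cM H L h) (du (Rt H L h E) ω))]
      exact PB_mono fun ω _ h => (CorD_inter (Finset.Subset.refl _)).1 h
    refine h5.trans (h2 (Rt H L h E) b (fun l hl' => hodd l (Rt_sub hl')) (1, 1) _ ρ _ n Dg11
      (fun l hl' _ => hw' l (Rt_sub hl')) (fun l h3 l' h4 _ _ he => hb l h3 l' h4 he) hρ1 hM)
  have e3 := p0 δ1 (min_le_left _ _) a1
  have e4 := p0 δ2 (min_le_right _ _) b1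
  linarith

end det

/-! ### The junction box -/

section box

variable {b : JBox} {δ σ : ℝ} {W : Finset Cell} {h L g : ℕ}

lemma mem_RC {a b c d : ℤ} {x : Cell} : x ∈ RC a b c d ↔
    (a ≤ x.1 ∧ x.1 < b) ∧ (c ≤ x.2 ∧ x.2 < d) := by
  unfold RC
  rw [mem_product, mem_Ico, mem_Ico]

lemma Q_bounds (hb : b.Ok δ σ) {c : Cell} (hc : c ∈ b.Q) :
    (-(b.X : ℤ) ≤ c.1 ∧ c.1 < b.X) ∧ (-((b.H : ℤ) + b.K) ≤ c.2 ∧ c.2 < b.H + b.K) := by
  unfold JBox.Q at hc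
  rw [mem_union, mem_RC, mem_biUnion] at hc
  rcases hc with hc | ⟨i, hi, hc⟩
  · omega
  · have hi' := mem_range.1 hi
    have h1 := hb.st_lo i hi'
    rw [mem_union, mem_RC, mem_RC] at hc
    omega

lemma tile_of (hh : 0 < h) {l : ℤ × ℤ} (hl' : l ∈ TL W (2 * (h : ℤ))) :
    ∃ c ∈ W, ct (2 * (h : ℤ)) (tt l) = c ∧
      (2 * (c.1 * (2 * (h : ℤ))) + 1 ≤ l.1 + l.2 ∧ l.1 + l.2 ≤ 2 * (c.1 * (2 * (h : ℤ))) + 4 * h - 1) ∧
      (2 * (c.2 * (2 * (h : ℤ))) + 1 ≤ l.2 - l.1 ∧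
        l.2 - l.1 ≤ 2 * (c.2 * (2 * (h : ℤ))) + 4 * h - 1) := by
  have hn : (0 : ℤ) < 2 * (h : ℤ) := by positivity
  obtain ⟨h1, h2⟩ := (mem_TL hn).1 hl'
  refine ⟨_, h2, rfl, ?_⟩
  obtain ⟨⟨h3, h4⟩, h5, h6⟩ := (ct_eq hn).1 (rfl : ct (2 * (h : ℤ)) (tt l) = _)
  generalize ct (2 * (h : ℤ)) (tt l) = c at *
  unfold tt at h3 h4 h5 h6
  simp only at h3 h4 h5 h6
  generalize c.1 * (2 * (h : ℤ)) = A at *
  generalize c.2 * (2 * (h : ℤ)) = B at *
  omega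

lemma TL_odd (hh : 0 < h) : ∀ l ∈ TL W (2 * (h : ℤ)), (l.1 + l.2) % 2 = 1 := fun _ hl' =>
  ((mem_TL (by positivity)).1 hl').1

lemma below_box (hb : b.Ok δ σ) (hW : W ⊆ b.Q) (hh : 0 < h) :
    Below b.H b.K h (TL W (2 * (h : ℤ))) := by
  intro l hl'
  obtain ⟨c, hc, -, -, h1, h2⟩ := tile_of hh hl'
  have h3 := (Q_bounds hb (hW hc)).2
  have hhp : (1 : ℤ) ≤ h := by exact_mod_cast hh
  have h4 : (h : ℤ) * (c.2 + 1) ≤ h * (b.H + b.K) := mul_le_mul_of_nonneg_left (by omega) (by omega)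
  have h5 : (h : ℤ) * (-((b.H : ℤ) + b.K)) ≤ h * c.2 := mul_le_mul_of_nonneg_left h3.1 (by omega)
  rw [abs_lt]
  constructor <;> nlinarith

lemma Ok.H_ge (hb : b.Ok δ σ) {N : ℕ} (hN : 0 < N) (hδ : δ ≤ 1 / N) : N ≤ b.H ∧ N * b.K ≤ b.H ∧
    N * b.M ≤ b.H := by
  have h1 := hb.M_le
  have h2 : (1 : ℝ) ≤ b.M := by exact_mod_cast hb.M0
  have h3 := hb.K_le
  have hNR : (0 : ℝ) < N := by exact_mod_cast hN
  have h4 : δ * b.H ≤ 1 / N * b.H := mul_le_mul_of_nonneg_right hδ (Nat.cast_nonneg _)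
  have h5 : (N : ℝ) * (1 / N * b.H) = b.H := by field_simp
  have h6 : (N : ℝ) * (b.M : ℝ) ≤ b.H := by
    rw [← h5]; exact mul_le_mul_of_nonneg_left (h1.trans h4) hNR.le
  have h7 : (N : ℝ) * (b.K : ℝ) ≤ b.H := by
    rw [← h5]; exact mul_le_mul_of_nonneg_left (h3.trans h4) hNR.le
  refine ⟨?_, by exact_mod_cast h7, by exact_mod_cast h6⟩
  have h8 : (N : ℝ) ≤ b.H := by nlinarith
  exact_mod_cast h8

/-- the plates of the box are thin -/
lemma thick_le (hb : b.Ok δ σ) {c : Cell} (hc : -(b.X : ℤ) ≤ c.1) (hc' : c.1 < 0) :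
    (b.τ : ℤ) + ((0 - c.1 - 1) / (b.M : ℤ)).toNat ≤ b.M := by
  have h1 := hb.τ_le
  have hM : (0 : ℤ) < b.M := by exact_mod_cast hb.M0
  have hMR : (0 : ℝ) < b.M := by exact_mod_cast hb.M0
  have h3 : 0 ≤ (0 - c.1 - 1) / (b.M : ℤ) := Int.ediv_nonneg (by omega) hM.le
  rw [Int.toNat_of_nonneg h3]
  have h4 : (0 - c.1 - 1) / (b.M : ℤ) * b.M ≤ 0 - c.1 - 1 := Int.ediv_mul_le _ hM.ne'
  have h7 : (0 - c.1 - 1) / (b.M : ℤ) * b.M ≤ (b.X : ℤ) := by omega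
  generalize (0 - c.1 - 1) / (b.M : ℤ) = q at *
  have h5 : (q : ℝ) ≤ b.X / b.M := by
    rw [le_div_iff₀ hMR]
    exact_mod_cast h7
  have h6 : (b.τ : ℝ) + (q : ℝ) ≤ b.M := by linarith
  exact_mod_cast h6

/-- cells high above or below the slit are natural -/
lemma chn_none (hb : b.Ok δ σ) {c : Cell} (hc : -(b.X : ℤ) ≤ c.1)
    (h : (b.M : ℤ) ≤ c.2 ∨ c.2 < -(b.M : ℤ)) : chn 0 b.M b.τ c = none := by
  unfold chn
  by_cases hc' : c.1 < 0
  · rw [if_pos hc']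
    have h1 := thick_le hb hc hc'
    simp only
    rw [if_neg]
    omega
  · rw [if_neg hc']

/-- high labels are natural -/
lemma hi_none (hb : b.Ok δ σ) (hδ : δ ≤ 1 / (4 : ℕ)) (hW : W ⊆ b.Q) (hh : 0 < h) {l : ℤ × ℤ}
    (hl' : l ∈ Hi b.H h (TL W (2 * (h : ℤ)))) : chn 0 b.M b.τ (ct (2 * (h : ℤ)) (tt l)) = none := by
  obtain ⟨h1, h2⟩ := mem_Hi.1 hl'
  obtain ⟨c, hc, h3, -, h4⟩ := tile_of hh h1
  rw [h3]
  obtain ⟨g1, -, g3⟩ := Ok.H_ge hb (N := 4) (by norm_num) hδ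
  refine chn_none hb (Q_bounds hb (hW hc)).1.1 ?_
  have hhp : (1 : ℤ) ≤ h := by exact_mod_cast hh
  by_contra hcon
  rw [not_or, not_le, not_lt] at hcon
  have h5 : (h : ℤ) * (c.2 + 1) ≤ h * b.M := mul_le_mul_of_nonneg_left (by omega) (by omega)
  have h6 : (h : ℤ) * (-(b.M : ℤ)) ≤ h * c.2 := mul_le_mul_of_nonneg_left hcon.2 (by omega)
  have h7 : (h : ℤ) * (4 * b.M) ≤ h * b.H := mul_le_mul_of_nonneg_left (by exact_mod_cast g3) (by omega)
  rw [le_abs] at h2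
  rcases h2 with h2 | h2 <;> nlinarith

lemma nat1_of_none {κ : Type*} {F : Finset (ℤ × ℤ)} {n : ℤ} {pl : Cell → Option κ}
    (h : ∀ e ∈ F, pl (ct n (tt e)) = none) : Nat1 (bk n pl) F := by
  intro e he e' he' h'
  rw [bk_none (h e he), bk_none (h e' he')] at h'
  exact Sum.inl_injective h'

/-- **E4, windows.** -/
theorem box_bad_le : ∃ C : ℝ, 0 < C ∧ ∀ (b : JBox) (δ σ : ℝ) (W : Finset Cell) (L g h : ℕ),
    0 < L → 0 < g → 0 < h → b.Ok δ σ → δ ≤ 1 / (4 * g : ℕ) → W ⊆ b.Q →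
    PB (TL W (2 * (h : ℤ))) (bk (2 * (h : ℤ)) (chn 0 b.M b.τ)) (fun ω =>
      BadO b.H b.K L g h (TL W (2 * (h : ℤ))) ω ∨ BadD b.H b.K L g h (TL W (2 * (h : ℤ))) ω) ≤
      C * (L / g) := by
  obtain ⟨C, hC, hbad⟩ := bad_le
  refine ⟨C, hC, fun b δ σ W L g h hL hg0 hh hb hδ hW => ?_⟩
  have hδ4 : δ ≤ 1 / (4 : ℕ) := by
    refine hδ.trans (one_div_le_one_div_of_le (by norm_num) ?_)
    exact_mod_cast (by omega : 4 ≤ 4 * g)
  refine hbad _ _ b.H b.K L g h hL hg0 hh ?_ (nat1_of_none fun l hl' => hi_none hb hδ4 hW hh hl')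
  have := (Ok.H_ge hb (N := 4 * g) (by omega) hδ).1
  rw [Nat.le_div_iff_mul_le hg0]
  exact this

/-- the side conditions of `BadO_of_cluster`, `BadD_of_cluster` -/
lemma box_side (hb : b.Ok δ σ) (hg11 : 11 ≤ g) (hδ : δ ≤ 1 / (8 * g : ℕ)) (hh : 0 < h) :
    b.K + 4 ≤ b.H / g ∧ cρ b.H g h < cR b.H h := by
  obtain ⟨h1, h2, -⟩ := Ok.H_ge hb (N := 8 * g) (by omega) hδ
  have h3 : b.K + 4 ≤ b.H / g := by
    rw [Nat.le_div_iff_mul_le (by omega)]
    nlinarith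
  refine ⟨h3, ?_⟩
  obtain ⟨r1, r2, r3⟩ := rad_le (H := b.H) hh (show 0 < g by omega) (by omega)
  have h4 : (11 : ℤ) ≤ g := by exact_mod_cast hg11
  nlinarith

/-- labels of the chunk are not high -/
lemma Pl_low (hb : b.Ok δ σ) (hσ : σ ≤ 1) (hδ : δ ≤ 1 / (4 : ℕ)) (hh : 0 < h) {l : ℤ × ℤ}
    (hl' : l ∈ b.Pl h) : |l.2 - l.1| < 2 * (h * b.H : ℤ) ∧ l.1 + l.2 < 0 := by
  unfold JBox.Pl at hl'
  obtain ⟨c, hc, -, h4, h5⟩ := tile_of hh hl'
  obtain ⟨g1, -, g3⟩ := Ok.H_ge hb (N := 4) (by norm_num) hδ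
  unfold JBox.Pc at hc
  obtain ⟨i, hi, hc'⟩ := mem_biUnion.1 hc
  rw [mem_RC] at hc'
  have hi' := mem_range.1 hi
  have hMR : (0 : ℝ) < b.M := by exact_mod_cast hb.M0
  -- the plate number is at most `X / M`
  have h6 : (b.m * b.M : ℝ) ≤ b.X := by
    have h7 := hb.len
    have h8 := hb.X_ge
    have h9 : δ * b.X ≤ 1 / 4 * b.X := mul_le_mul_of_nonneg_right (by simpa using hδ) (Nat.cast_nonneg _)
    have h10 : σ * b.H ≤ 1 * b.H := mul_le_mul_of_nonneg_right hσ (Nat.cast_nonneg _)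
    have h11 : (0 : ℝ) ≤ b.X := Nat.cast_nonneg _
    linarith
  have h7 : (b.τ : ℝ) + b.m ≤ b.M := by
    have h8 := hb.τ_le
    have h9 : (b.m : ℝ) ≤ b.X / b.M := by rw [le_div_iff₀ hMR]; exact h6
    linarith
  have h8 : b.τ + b.m ≤ b.M := by exact_mod_cast h7
  have hhp : (1 : ℤ) ≤ h := by exact_mod_cast hh
  have h9 : (h : ℤ) * (c.2 + 1) ≤ h * b.M := mul_le_mul_of_nonneg_left (by omega) (by omega)
  have h10 : (h : ℤ) * (-(b.M : ℤ)) ≤ h * c.2 := mul_le_mul_of_nonneg_left (by omega) (by omega)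
  have h11 : (h : ℤ) * (4 * b.M) ≤ h * b.H := mul_le_mul_of_nonneg_left (by exact_mod_cast g3) (by omega)
  have h12 : c.1 ≤ -1 := by
    have : (0 : ℤ) ≤ i * b.M := by positivity
    omega
  have h13 : (h : ℤ) * c.1 ≤ h * (-1) := mul_le_mul_of_nonneg_left h12 (by omega)
  refine ⟨?_, by nlinarith⟩
  rw [abs_lt]
  constructor <;> nlinarith

/-- changing the labels of the chunk does not change the bad event -/
theorem box_BadO_sdiff (hb : b.Ok δ σ) (hσ : σ ≤ 1) (hδ : δ ≤ 1 / (4 : ℕ)) (hh : 0 < h)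
    {E ω : Finset (ℤ × ℤ)} (hω : ω ⊆ E) :
    BadO b.H b.K L g h E (ω \ b.Pl h) ↔ BadO b.H b.K L g h E ω := by
  refine BadO_congr (sdiff_subset.trans hω) hω ?_
  ext l
  rw [mem_inter, mem_inter, mem_sdiff]
  constructor
  · rintro ⟨⟨h1, -⟩, h2⟩
    exact ⟨h1, h2⟩
  · rintro ⟨h1, h2⟩
    refine ⟨⟨h1, fun h3 => ?_⟩, h2⟩
    have h4 := (Pl_low hb hσ hδ hh h3).1
    have h5 := (mem_Hi.1 h2).2
    omega

theorem box_BadD_union (hb : b.Ok δ σ) (hσ : σ ≤ 1) (hδ : δ ≤ 1 / (4 : ℕ)) (hh : 0 < h)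
    {E ω : Finset (ℤ × ℤ)} :
    BadD b.H b.K L g h E (ω ∪ b.Pl h) ↔ BadD b.H b.K L g h E ω := by
  refine BadD_congr ?_
  ext l
  rw [mem_inter, mem_inter, mem_union]
  constructor
  · rintro ⟨h1 | h1, h2⟩
    · exact ⟨h1, h2⟩
    · have h4 := (Pl_low hb hσ hδ hh h1).1
      have h5 := (mem_Hi.1 h2).2
      omega
  · rintro ⟨h1, h2⟩
    exact ⟨Or.inl h1, h2⟩

/-- labels to the right are natural -/
lemma rt_none (hh : 0 < h) {l : ℤ × ℤ} {M τ : ℕ}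
    (hl' : l ∈ Rt b.H L h (TL W (2 * (h : ℤ)))) : chn 0 M τ (ct (2 * (h : ℤ)) (tt l)) = none := by
  obtain ⟨h1, h2⟩ := mem_Rt.1 hl'
  obtain ⟨c, hc, h3, h4, -⟩ := tile_of hh h1
  rw [h3]
  have h5 : (0 : ℤ) ≤ h * (L * b.H) := by positivity
  have hhp : (1 : ℤ) ≤ h := by exact_mod_cast hh
  have h6 : ¬ c.1 < 0 := by
    intro h7
    have h8 : (h : ℤ) * c.1 ≤ h * (-1) := mul_le_mul_of_nonneg_left (by omega) (by omega)
    nlinarith
  unfold chn
  rw [if_neg h6]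

/-- **E4, right corridor.** -/
theorem box_cor_le : ∃ d : ℝ, 0 < d ∧ d < 1 ∧ ∀ (b : JBox) (δ σ : ℝ) (W : Finset Cell)
    (L n h : ℕ), 0 < h → b.Ok δ σ → δ ≤ 1 / (4 : ℕ) → W ⊆ b.Q → 22 * n + 4 ≤ L →
    PB (TL W (2 * (h : ℤ))) (bk (2 * (h : ℤ)) (chn 0 b.M b.τ)) (fun ω =>
      CorO b.H L h (TL W (2 * (h : ℤ))) ω ∨ CorD b.H L h (TL W (2 * (h : ℤ))) ω) ≤
      2 * (1 - d) ^ n := by
  obtain ⟨d, h0, h1, hc⟩ := cor_le
  refine ⟨d, h0, h1, fun b δ σ W L n h hh hb hδ hW hL => ?_⟩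
  obtain ⟨g1, g2, g3⟩ := Ok.H_ge hb (N := 4) (by norm_num) hδ
  exact hc _ _ b.H b.K L h n (TL_odd hh) (below_box hb hW hh) hh (by omega) g2 hL
    (nat1_of_none fun l hl' => rt_none (b := b) hh hl')

end box

end Pool.Agent.H65.W
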